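import Pool.Agent.H483.SA.Main
import Pool.Graph.R_seed8.H510R2.Div

set_option autoImplicit false

/-!
# The Dirichlet series `ζ^m H` and its Euler product
-/

namespace Pool.Agent.H483.ZP

open Set Filter Topology Complex
open Pool.Agent.H483.SA
open scoped ArithmeticFunction

/-- the coefficients of `ζ^m H` -/
noncomputable def fc (a : ℕ → ℂ) : ℕ → ArithmeticFunction ℂ
  | 0 => ⟨cf a, cf_zero' a⟩
  | m + 1 => (ArithmeticFunction.zeta : ArithmeticFunction ℂ) * fc a m

lemma fc_one (a : ℕ → ℂ) (m : ℕ) : fc a m 1 = 1 := by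
  induction m with
  | zero => exact cf_one a
  | succ m ih =>
    show ((ArithmeticFunction.zeta : ArithmeticFunction ℂ) * fc a m) 1 = 1
    rw [ArithmeticFunction.coe_zeta_mul_apply]
    simpa using ih

lemma fc_series {a : ℕ → ℂ} {s : ℂ} (hs : 1 < s.re) (ha : LSeriesSummable (cf a) s) (m : ℕ) :
    LSeriesSummable (fun n => fc a m n) s ∧ LSeries (fun n => fc a m n) s = riemannZeta s ^ m * LSeries (cf a) s := by
  induction m with
  | zero =>
    rw [pow_zero, one_mul]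
    exact ⟨ha, rfl⟩
  | succ m ih =>
    obtain ⟨h1, h2⟩ := ih
    have h3 : LSeriesSummable (fun n => (ArithmeticFunction.zeta : ArithmeticFunction ℂ) n) s := by
      have := ArithmeticFunction.LSeriesSummable_zeta_iff.2 hs
      exact this
    have e : ∀ n, fc a (m + 1) n = ((ArithmeticFunction.zeta : ArithmeticFunction ℂ) * fc a m) n := fun n => rfl
    have e1 : (fun n => fc a (m + 1) n) = fun n => ((ArithmeticFunction.zeta : ArithmeticFunction ℂ) * fc a m) n := rfl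
    rw [e1]
    refine ⟨ArithmeticFunction.LSeriesSummable_mul h3 h1, ?_⟩
    rw [ArithmeticFunction.LSeries_mul' h3 h1, h2]
    have h4 : LSeries (fun n => (ArithmeticFunction.zeta : ArithmeticFunction ℂ) n) s = riemannZeta s :=
      ArithmeticFunction.LSeries_zeta_eq_riemannZeta hs
    rw [h4]
    ring

lemma fc_ram {a : ℕ → ℂ} (ha : ∀ p, ‖a p‖ ≤ 1) (m : ℕ) : ∀ ε : ℝ, 0 < ε → ∃ C : ℝ, ∀ n : ℕ, 1 ≤ n →
    ‖fc a m n‖ ≤ C * (n : ℝ) ^ ε := by
  induction m with
  | zero =>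
    intro ε hε
    refine ⟨1, fun n hn => ?_⟩
    rw [one_mul]
    exact (cf_le_one ha n).trans (Real.one_le_rpow (by exact_mod_cast hn) hε.le)
  | succ m ih =>
    intro ε hε
    obtain ⟨C, hC⟩ := ih (ε / 2) (by positivity)
    obtain ⟨D, hD, hDn⟩ := Pool.Agent.H510R2.divisor_bound (ε / 2) (by positivity)
    refine ⟨D * |C|, fun n hn => ?_⟩
    have hn0 : (0:ℝ) < n := by exact_mod_cast hn
    have e : fc a (m + 1) n = ∑ d ∈ n.divisors, fc a m d := by
      show ((ArithmeticFunction.zeta : ArithmeticFunction ℂ) * fc a m) n = _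
      rw [ArithmeticFunction.coe_zeta_mul_apply]
    rw [e]
    have h1 : ∀ d ∈ n.divisors, ‖fc a m d‖ ≤ |C| * (n : ℝ) ^ (ε / 2) := by
      intro d hd
      have hd1 : 1 ≤ d := Nat.pos_of_mem_divisors hd
      have hdn : (d : ℝ) ≤ n := by exact_mod_cast Nat.divisor_le hd
      refine (hC d hd1).trans ?_
      have := le_abs_self C
      gcongr
    calc _ ≤ ∑ d ∈ n.divisors, ‖fc a m d‖ := norm_sum_le _ _
      _ ≤ ∑ _d ∈ n.divisors, |C| * (n : ℝ) ^ (ε / 2) := Finset.sum_le_sum h1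
      _ = (n.divisors.card : ℝ) * (|C| * (n : ℝ) ^ (ε / 2)) := by rw [Finset.sum_const, nsmul_eq_mul]
      _ ≤ (D * (n : ℝ) ^ (ε / 2)) * (|C| * (n : ℝ) ^ (ε / 2)) := by
          have := hDn n hn
          gcongr
      _ = D * |C| * ((n : ℝ) ^ (ε / 2) * (n : ℝ) ^ (ε / 2)) := by ring
      _ = _ := by rw [← Real.rpow_add hn0]; congr 2; ring

open Classical in
/-- the coefficients of the logarithm -/
noncomputable def bb (a : ℕ → ℂ) (m : ℕ) (n : ℕ) : ℂ :=
  if IsPrimePow n then (m : ℂ) / (n.factorization n.minFac : ℂ) + bc a n else 0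

lemma bb_pow (a : ℕ → ℂ) (m : ℕ) {p k : ℕ} (hp : p.Prime) (hk : 1 ≤ k) :
    bb a m (p ^ k) = (m : ℂ) / (k : ℂ) + bc a (p ^ k) := by
  unfold bb
  have h1 : (p ^ k).minFac = p := hp.pow_minFac (by omega)
  have h2 : (p ^ k).factorization p = k := by
    rw [hp.factorization_pow]; simp
  rw [if_pos (hp.isPrimePow.pow (by omega)), h1, h2]

lemma bb_zero (a : ℕ → ℂ) (m : ℕ) {n : ℕ} (hn : ¬ IsPrimePow n) : bb a m n = 0 := by
  unfold bb
  rw [if_neg hn]

lemma bb_le {a : ℕ → ℂ} (ha : ∀ p, ‖a p‖ ≤ 1) (m n : ℕ) : ‖bb a m n‖ ≤ m + 1 := by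
  by_cases hn : IsPrimePow n
  · obtain ⟨p, k, hp, hk, rfl⟩ := hn
    have hp' : p.Prime := Nat.prime_iff.2 hp
    rw [bb_pow a m hp' hk]
    refine (norm_add_le _ _).trans (add_le_add ?_ (bc_le ha hp' hk))
    rw [norm_div, Complex.norm_natCast, Complex.norm_natCast]
    exact div_le_self (Nat.cast_nonneg _) (by exact_mod_cast hk)
  · rw [bb_zero a m hn, norm_zero]
    positivity

lemma bb_summable {a : ℕ → ℂ} (ha : ∀ p, ‖a p‖ ≤ 1) (m : ℕ) {s : ℂ} (hs : 1 < s.re) : LSeriesSummable (bb a m) s :=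
  LSeriesSummable_of_bounded_of_one_lt_re (fun n _ => bb_le ha m n) hs

lemma zeta_pow (m : ℕ) {s : ℂ} (hs : 1 < s.re) :
    HasProd (fun p : Nat.Primes => ((1 - ((p : ℕ) : ℂ) ^ (-s))⁻¹) ^ m) (riemannZeta s ^ m) := by
  induction m with
  | zero => simp only [pow_zero]; exact hasProd_one
  | succ m ih =>
    simp only [pow_succ]
    exact ih.mul (riemannZeta_eulerProduct_hasProd hs)

/-- **The Euler product.** -/
theorem bb_exp {a : ℕ → ℂ} (ha : ∀ p, ‖a p‖ ≤ 1) (m : ℕ) {s : ℂ} (hs : 1 < s.re) (hsum : LSeriesSummable (cf a) s) :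
    Complex.exp (LSeries (bb a m) s) = riemannZeta s ^ m * LSeries (cf a) s := by
  have h0 := bb_summable ha m hs
  have hsup : Function.support (LSeries.term (bb a m) s) ⊆ {n | IsPrimePow n} := by
    intro n hn
    by_contra hcon
    apply hn
    rcases Nat.eq_zero_or_pos n with rfl | hn0
    · simp
    · rw [LSeries.term_of_ne_zero hn0.ne', bb_zero a m hcon, zero_div]
  have h1 : LSeries (bb a m) s = ∑' (p : Nat.Primes) (k : ℕ), LSeries.term (bb a m) s (p ^ (k + 1)) :=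
    tsum_eq_tsum_primes_of_support_subset_prime_powers h0 hsup
  have hinj : Function.Injective fun pk : Nat.Primes × ℕ => ((pk.1 : ℕ) ^ (pk.2 + 1)) := by
    have := (Subtype.val_injective.comp Nat.Primes.prodNatEquiv.injective)
    exact this
  have h2 : Summable fun pk : Nat.Primes × ℕ => LSeries.term (bb a m) s ((pk.1 : ℕ) ^ (pk.2 + 1)) :=
    h0.comp_injective hinj
  have h3 : HasSum (fun p : Nat.Primes => ∑' k : ℕ, LSeries.term (bb a m) s ((p : ℕ) ^ (k + 1))) (LSeries (bb a m) s) := by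
    rw [h1]
    exact h2.prod.hasSum
  have h4 := h3.cexp
  have h5 : HasProd (fun p : Nat.Primes => ((1 - ((p : ℕ) : ℂ) ^ (-s))⁻¹) ^ m * (1 + a p * ((p : ℕ) : ℂ) ^ (-s)))
      (riemannZeta s ^ m * LSeries (cf a) s) := by
    exact (zeta_pow m hs).mul (euler_basic hsum)
  refine h4.unique (h5.congr_fun fun p => ?_)
  have hp := p.2
  have hp0 : ((p : ℕ) : ℂ) ≠ 0 := by exact_mod_cast hp.ne_zero
  set w : ℂ := ((p : ℕ) : ℂ) ^ (-s) with hw
  have hw1 : ‖w‖ < 1 := by
    rw [hw, Complex.norm_natCast_cpow_of_pos hp.pos]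
    apply Real.rpow_lt_one_of_one_lt_of_neg
    · exact_mod_cast hp.one_lt
    · simp; linarith
  have hz1 : ‖a p * w‖ < 1 := by
    rw [norm_mul]
    have h2 := ha p
    have h3 := norm_nonneg w
    calc _ ≤ 1 * ‖w‖ := by gcongr
      _ < 1 := by rw [one_mul]; exact hw1
  have hlog1 := (hasSum_nat_add_iff' 1).2 (Complex.hasSum_taylorSeries_neg_log hw1)
  have hlog2 := (hasSum_nat_add_iff' 1).2 (Complex.hasSum_taylorSeries_log hz1)
  simp only [Finset.sum_range_one, Nat.cast_zero, div_zero, sub_zero] at hlog1 hlog2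
  have hh := (hlog1.mul_left (m : ℂ)).add hlog2
  have e1 : ∑' k : ℕ, LSeries.term (bb a m) s ((p : ℕ) ^ (k + 1)) = m * -Complex.log (1 - w) + Complex.log (1 + a p * w) := by
    rw [← hh.tsum_eq]
    congr 1
    funext k
    have hpk : (p : ℕ) ^ (k + 1) ≠ 0 := pow_ne_zero _ hp.ne_zero
    rw [LSeries.term_of_ne_zero hpk, bb_pow a m hp (by omega), bc_pow a hp (by omega)]
    have e2 : (((p : ℕ) ^ (k + 1) : ℕ) : ℂ) ^ s = (w ^ (k + 1))⁻¹ := by
      rw [hw, Complex.cpow_neg, inv_pow, inv_inv]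
      push_cast
      rw [← Complex.natCast_cpow_natCast_mul]
      rw [← Complex.cpow_nat_mul]
    rw [e2, div_inv_eq_mul]
    ring
  show Complex.exp (∑' k : ℕ, LSeries.term (bb a m) s ((p : ℕ) ^ (k + 1))) = (1 - w)⁻¹ ^ m * (1 + a p * w)
  have n1 : 1 - w ≠ 0 := by
    intro h
    have h4 : w = 1 := by linear_combination -h
    rw [h4] at hw1
    simp at hw1
  have n2 : 1 + a p * w ≠ 0 := by
    intro h
    have h4 : a p * w = -1 := by linear_combination h
    rw [h4] at hz1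
    simp at hz1
  rw [e1, Complex.exp_add, Complex.exp_log n2, Complex.exp_nat_mul, Complex.exp_neg, Complex.exp_log n1]

end Pool.Agent.H483.ZP
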