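import Pool.Agent.H483.ZP.Fam
import Pool.Agent.H483.ZP.Ser

set_option autoImplicit false

/-!
# The function `(s - 1)^m F(s)`
-/

namespace Pool.Agent.H483.ZP

open Set Filter Topology Complex
open Pool.Agent.H483.FE Pool.Agent.H483.SA Pool.Agent.H902R3.PZ
open scoped ComplexConjugate

variable {r : ℕ}

/-- the reciprocal of the completed gamma factor, divided by `s^m` -/
noncomputable def jg (c : ℂ) (Q : ℝ) (lam : Fin r → ℝ) (mu : Fin r → ℂ) (J : Finset (Fin r)) (s : ℂ) : ℂ :=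
  c⁻¹ * (Q : ℂ) ^ (-s) * ∏ j, (if j ∈ J then (lam j : ℂ) * (Complex.Gamma ((lam j : ℂ) * s + 1))⁻¹ else
    (Complex.Gamma ((lam j : ℂ) * s + mu j))⁻¹)

lemma jg_diff (c : ℂ) {Q : ℝ} (hQ : 0 < Q) (lam : Fin r → ℝ) (mu : Fin r → ℂ) (J : Finset (Fin r)) :
    Differentiable ℂ (jg c Q lam mu J) := by
  have hQ' : (Q : ℂ) ≠ 0 := by exact_mod_cast hQ.ne'
  unfold jg
  apply Differentiable.mul
  · apply Differentiable.const_mul
    intro s
    exact DifferentiableAt.const_cpow (by fun_prop) (Or.inl hQ')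
  · apply Differentiable.fun_finsetProd
    intro j _
    by_cases h : j ∈ J
    · simp only [if_pos h]
      exact (inv_Gamma_diff _ _).const_mul _
    · simp only [if_neg h]
      exact inv_Gamma_diff _ _

lemma jg_Gr (c : ℂ) {Q : ℝ} (hQ : 0 < Q) (lam : Fin r → ℝ) (mu : Fin r → ℂ) (J : Finset (Fin r)) :
    Gr (jg c Q lam mu J) := by
  have h1 := cpow_Gr hQ (-1) 0
  have h2 : Gr (fun s : ℂ => ∏ j, (if j ∈ J then (lam j : ℂ) * (Complex.Gamma ((lam j : ℂ) * s + 1))⁻¹ else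
    (Complex.Gamma ((lam j : ℂ) * s + mu j))⁻¹)) := by
    apply Gr.prod
    intro j _
    by_cases h : j ∈ J
    · simp only [if_pos h]
      exact (Gr.const _).mul (Gr.inv_Gamma.comp_affine (lam j : ℂ) 1)
    · simp only [if_neg h]
      exact Gr.inv_Gamma.comp_affine (lam j : ℂ) (mu j)
  have h3 := ((Gr.const c⁻¹).mul h1).mul h2
  refine Gr.norm_le h3 fun s => le_of_eq ?_
  unfold jg
  congr 3
  ring_nf

lemma jg_mul (c : ℂ) {Q : ℝ} (hQ : 0 < Q) {lam : Fin r → ℝ} {mu : Fin r → ℂ} {J : Finset (Fin r)}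
    (hJ : ∀ j ∈ J, mu j = 0) {s : ℂ} (hs : ∀ j, ∀ n : ℕ, (lam j : ℂ) * s + mu j ≠ -(n : ℂ)) :
    s ^ J.card * jg c Q lam mu J s * ((Q : ℂ) ^ s * ∏ j, Complex.Gamma ((lam j : ℂ) * s + mu j)) = c⁻¹ := by
  have hQ' : (Q : ℂ) ≠ 0 := by exact_mod_cast hQ.ne'
  have e1 : s ^ J.card = ∏ j : Fin r, if j ∈ J then s else 1 := by
    rw [Finset.prod_ite_mem, Finset.univ_inter, Finset.prod_const]
  have h1 : s ^ J.card * (∏ j, (if j ∈ J then (lam j : ℂ) * (Complex.Gamma ((lam j : ℂ) * s + 1))⁻¹ else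
      (Complex.Gamma ((lam j : ℂ) * s + mu j))⁻¹)) * (∏ j, Complex.Gamma ((lam j : ℂ) * s + mu j)) = 1 := by
    rw [e1, ← Finset.prod_mul_distrib, ← Finset.prod_mul_distrib, Finset.prod_eq_one]
    intro j _
    have hne := Complex.Gamma_ne_zero (hs j)
    split_ifs with h
    · have h0 := hs j 0
      rw [hJ j h] at hne h0 ⊢
      simp only [add_zero, Nat.cast_zero, neg_zero] at hne h0 ⊢
      rw [Complex.Gamma_add_one _ h0]
      have h2 : (lam j : ℂ) ≠ 0 := left_ne_zero_of_mul h0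
      have h3 : s ≠ 0 := right_ne_zero_of_mul h0
      generalize Complex.Gamma ((lam j : ℂ) * s) = g at hne ⊢
      field_simp
    · rw [one_mul]
      exact inv_mul_cancel₀ hne
  have h2 : (Q : ℂ) ^ (-s) * (Q : ℂ) ^ s = 1 := by
    rw [← Complex.cpow_add _ _ hQ']; simp
  unfold jg
  generalize (∏ j, (if j ∈ J then (lam j : ℂ) * (Complex.Gamma ((lam j : ℂ) * s + 1))⁻¹ else
      (Complex.Gamma ((lam j : ℂ) * s + mu j))⁻¹)) = W at h1 ⊢
  generalize (∏ j, Complex.Gamma ((lam j : ℂ) * s + mu j)) = V at h1 ⊢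
  calc _ = c⁻¹ * ((Q : ℂ) ^ (-s) * (Q : ℂ) ^ s) * (s ^ J.card * W * V) := by ring
    _ = _ := by rw [h1, h2]; ring

/-- `s (s - 1) ζ(s)` cut off on the left -/
lemma sZ_Gr (m : ℕ) : Gr (fun s : ℂ => if 1 ≤ s.re then (s * Zf s) ^ m else 0) := by
  have h1 : Gr (fun s : ℂ => if 1 ≤ s.re then s * Zf s else 0) := by
    refine ⟨5, by norm_num, fun s => ?_⟩
    beta_reduce
    have hn := norm_nonneg s
    split_ifs with hs
    · rw [norm_mul]
      have k1 := Zf_bound (s := s) (by linarith)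
      have k2 : ‖s - 1‖ ≤ 1 + ‖s‖ := by
        refine (norm_sub_le _ _).trans ?_
        rw [norm_one]; linarith
      have k3 : ‖s‖ / s.re ≤ ‖s‖ := div_le_self hn hs
      have k4 : ‖Zf s‖ ≤ (1 + ‖s‖) * (1 + ‖s‖) + 1 := k1.trans (by gcongr)
      have k5 : 1 + ‖s‖ ≤ Real.exp ‖s‖ := by linarith [Real.add_one_le_exp ‖s‖]
      have k6 : ‖s‖ * ‖Zf s‖ ≤ (1 + ‖s‖) * ((1 + ‖s‖) * ((1 + ‖s‖) * 2)) := by
        calc _ ≤ (1 + ‖s‖) * ((1 + ‖s‖) * (1 + ‖s‖) + 1) := by gcongr; linarith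
          _ ≤ _ := by nlinarith
      refine k6.trans ?_
      calc (1 + ‖s‖) * ((1 + ‖s‖) * ((1 + ‖s‖) * 2)) ≤
          Real.exp ‖s‖ * (Real.exp ‖s‖ * (Real.exp ‖s‖ * Real.exp 1)) := by
            have : (2:ℝ) ≤ Real.exp 1 := by linarith [Real.add_one_le_exp (1:ℝ)]
            gcongr
        _ = Real.exp (3 * ‖s‖ + 1) := by rw [← Real.exp_add, ← Real.exp_add, ← Real.exp_add]; congr 1; ring
        _ ≤ _ := by
            apply Real.exp_le_exp.2
            nlinarith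
    · rw [norm_zero]
      positivity
  have h2 := Gr.prod (Finset.range m) (f := fun _ : ℕ => fun s : ℂ => if 1 ≤ s.re then s * Zf s else 0) (fun _ _ => h1)
  refine Gr.norm_le h2 fun s => ?_
  simp only [Finset.prod_const, Finset.card_range]
  split_ifs with h
  · exact le_rfl
  · rw [norm_zero]; positivity

/-- **The function `G`.** -/
theorem gfun {c : ℂ} (hc : c ≠ 0) {Q : ℝ} (hQ : 0 < Q) {lam : Fin r → ℝ} {mu : Fin r → ℂ}
    (hl : ∀ j, 0 < lam j) (hm : ∀ j, 0 ≤ (mu j).re) {J : Finset (Fin r)} (hJ : ∀ j ∈ J, mu j = 0) {α : ℝ} (hα : 0 < α)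
    (hα2 : α < 1 / 2) {a : ℕ → ℂ} {Λ : ℂ → ℂ} (h0 : a 0 = 0)
    (ha : Summable fun n : ℕ => ‖a n‖ ^ 2 * (n : ℝ) ^ (-(2 * α)))
    (hΛd : Differentiable ℂ Λ) (hΛf : ∀ s, Λ (1 - conj s) = conj (Λ s)) (hΛb : SB Λ)
    (hΛs : ∀ s : ℂ, 1 / 2 + α < s.re → LSeriesSummable a s ∧
      Λ s = (Q : ℂ) ^ s * (gm c lam mu s * (s * Zf s) ^ J.card) * LSeries a s) :
    ∃ G : ℂ → ℂ, Differentiable ℂ G ∧ Gr G ∧
      (∀ s : ℂ, 1 / 2 + α < s.re → G s = Zf s ^ J.card * LSeries a s) ∧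
      (∀ s : ℂ, 0 < s.re → Λ s ≠ 0 → G s ≠ 0) ∧
      ∀ s : ℂ, s ≠ 0 → s ≠ 1 → (∀ j, ∀ n : ℕ, (lam j : ℂ) * s + mu j ≠ -(n : ℂ)) →
        (∀ j, ∀ n : ℕ, (lam j : ℂ) * (1 - conj s) + mu j ≠ -(n : ℂ)) →
        (Q : ℂ) ^ s * (∏ j, Complex.Gamma ((lam j : ℂ) * s + mu j)) * (G s / (s - 1) ^ J.card) =
          (conj c / c) * conj ((Q : ℂ) ^ (1 - conj s) * (∏ j, Complex.Gamma ((lam j : ℂ) * (1 - conj s) + mu j)) *
            (G (1 - conj s) / (1 - conj s - 1) ^ J.card)) := by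
  have hQ' : (Q : ℂ) ≠ 0 := by exact_mod_cast hQ.ne'
  have hc' : conj c ≠ 0 := by simpa using hc
  set m := J.card with hmm
  have hpos : ∀ s : ℂ, 0 < s.re → ∀ j, ∀ n : ℕ, (lam j : ℂ) * s + mu j ≠ -(n : ℂ) := by
    intro s hs j n h
    have h1 := congrArg Complex.re h
    rw [re_aff] at h1
    have h2 := mul_pos (hl j) hs
    have h3 := hm j
    have h4 : (0:ℝ) ≤ n := Nat.cast_nonneg n
    simp at h1
    linarith
  have hs0 : ∀ s : ℂ, 0 < s.re → s ≠ 0 := by
    rintro s hs rfl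
    simp at hs
  have hser : ∀ s : ℂ, 1 / 2 + α < s.re → Λ s * jg c Q lam mu J s = Zf s ^ m * LSeries a s := by
    intro s hs
    obtain ⟨h1, h2⟩ := hΛs s hs
    have h3 := jg_mul c hQ hJ (hpos s (by linarith))
    rw [h2]
    unfold gm
    calc _ = c * (s ^ J.card * jg c Q lam mu J s * ((Q : ℂ) ^ s * ∏ j, Complex.Gamma ((lam j : ℂ) * s + mu j))) *
          (Zf s ^ m * LSeries a s) := by rw [mul_pow]; ring
      _ = _ := by rw [h3, mul_inv_cancel₀ hc, one_mul]
  -- bound of the series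
  obtain ⟨CL, hCL⟩ : ∃ CL : ℝ, ∀ s : ℂ, 2 ≤ s.re → ‖LSeries a s‖ ≤ CL := by
    have h1 := abs_sum ha hα (σ := 2) (by linarith)
    refine ⟨∑' n : ℕ, ‖a n‖ * (n : ℝ) ^ (-(2:ℝ)), fun s hs => ?_⟩
    unfold LSeries
    apply tsum_of_norm_bounded h1.hasSum
    intro n
    rcases Nat.eq_zero_or_pos n with rfl | hn
    · simp [h0]
    · rw [LSeries.norm_term_eq, if_neg hn.ne', Real.rpow_neg (Nat.cast_nonneg n), div_eq_mul_inv]
      have hn1 : (1:ℝ) ≤ n := by exact_mod_cast hn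
      gcongr
  have hGr : Gr (fun s => Λ s * jg c Q lam mu J s) := by
    obtain ⟨CS, hCS⟩ := hΛb (-1) 2
    set R : ℂ → ℂ := fun s => (if 1 ≤ s.re then ∏ j, Complex.Gamma ((lam j : ℂ) * s + mu j) else 0) with hR
    have hRGr : Gr R := gamma_right_Gr hl hm
    set S : ℂ → ℂ := fun s => (if 1 ≤ s.re then (s * Zf s) ^ m else 0) with hS
    have hSGr : Gr S := sZ_Gr m
    have hp1 : Gr (fun s : ℂ => ((|CL| : ℝ) : ℂ) * S s) := (Gr.const _).mul hSGr
    have hp2 : Gr (fun s => ((|CS| : ℝ) : ℂ) * jg c Q lam mu J s) := (Gr.const _).mul (jg_Gr c hQ lam mu J)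
    have hp3a : Gr (fun s => (((|CL| : ℝ) : ℂ) * c) * ((Q : ℂ) ^ ((1:ℂ) * s + 0) * (R s * S s))) :=
      (Gr.const _).mul ((cpow_Gr hQ 1 0).mul (hRGr.mul hSGr))
    have hp3b : Gr (fun s => (((|CL| : ℝ) : ℂ) * c) * ((Q : ℂ) ^ ((1:ℂ) * (1 - conj s) + 0) *
        (R (1 - conj s) * S (1 - conj s)))) := by
      obtain ⟨C, hC, hb⟩ := hp3a
      refine ⟨4 * C, by positivity, fun s => (hb (1 - conj s)).trans (Real.exp_le_exp.2 ?_)⟩
      have h1 : ‖1 - conj s‖ ≤ 1 + ‖s‖ := by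
        refine (norm_sub_le _ _).trans ?_
        rw [norm_one, Complex.norm_conj]
      have h2 := norm_nonneg s
      have h3 := norm_nonneg (1 - conj s)
      have h4 : (1 + ‖1 - conj s‖) ^ 2 ≤ 4 * (1 + ‖s‖) ^ 2 := by nlinarith
      calc _ ≤ C * (4 * (1 + ‖s‖) ^ 2) := by gcongr
        _ = _ := by ring
    have hp3 := hp3b.mul (jg_Gr c hQ lam mu J)
    refine Gr.piece hp1 (Gr.piece (f := fun s => if 2 ≤ s.re then 0 else Λ s * jg c Q lam mu J s) hp2 hp3 ?_) ?_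
    · intro s
      by_cases h2 : 2 ≤ s.re
      · left
        simp only [if_pos h2, norm_zero]
        positivity
      · simp only [if_neg h2]
        push Not at h2
        rcases le_total (-1) s.re with h3 | h3
        · left
          rw [norm_mul, norm_mul]
          gcongr
          simp only [Complex.norm_real, Real.norm_eq_abs, abs_abs]
          exact (hCS s h3 h2.le).trans (le_abs_self _)
        · right
          rw [norm_mul, norm_mul]
          gcongr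
          have h4 : 2 ≤ (1 - conj s).re := by simp; linarith
          have e0 : ‖Λ s‖ = ‖Λ (1 - conj s)‖ := by rw [hΛf s, Complex.norm_conj]
          rw [e0, (hΛs (1 - conj s) (by linarith)).2]
          simp only [hR, hS]
          rw [if_pos (by linarith), if_pos (by linarith)]
          have e1 : (1:ℂ) * (1 - conj s) + 0 = 1 - conj s := by ring
          rw [e1]
          unfold gm
          rw [norm_mul, norm_mul, norm_mul, norm_mul, norm_mul, norm_mul, norm_mul, norm_mul]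
          simp only [Complex.norm_real, Real.norm_eq_abs, abs_abs]
          have h5 := (hCL (1 - conj s) h4).trans (le_abs_self CL)
          calc _ ≤ ‖(Q : ℂ) ^ (1 - conj s)‖ * (‖c‖ * ‖∏ j, Complex.Gamma ((lam j : ℂ) * (1 - conj s) + mu j)‖ *
                ‖((1 - conj s) * Zf (1 - conj s)) ^ m‖) * |CL| := by
                gcongr
            _ = _ := by ring
    · intro s
      by_cases h2 : 2 ≤ s.re
      · left
        rw [hser s (by linarith), norm_mul, norm_mul]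
        simp only [hS, Complex.norm_real, Real.norm_eq_abs, abs_abs]
        rw [if_pos (by linarith), mul_comm]
        have h5 := (hCL s h2).trans (le_abs_self CL)
        have h6 : 1 ≤ ‖s‖ := le_trans (by linarith) (Complex.re_le_norm s)
        have h7 : ‖Zf s ^ m‖ ≤ ‖(s * Zf s) ^ m‖ := by
          rw [norm_pow, norm_pow, norm_mul]
          apply pow_le_pow_left₀ (norm_nonneg _)
          exact le_mul_of_one_le_left (norm_nonneg _) h6
        gcongr
      · right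
        simp only [if_neg h2]
        exact le_rfl
  refine ⟨fun s => Λ s * jg c Q lam mu J s, hΛd.mul (jg_diff c hQ lam mu J), hGr, hser, ?_, ?_⟩
  · intro s hs hΛ
    have h3 := jg_mul c hQ hJ (hpos s hs)
    refine mul_ne_zero hΛ ?_
    intro h4
    rw [h4] at h3
    simp at h3
    exact hc h3.symm
  · intro s hs0 hs1 h1 h2
    beta_reduce
    have h11 : s - 1 ≠ 0 := sub_ne_zero.2 hs1
    have hcs1 : 1 - conj s ≠ 0 := by
      intro h
      apply hs1
      have := congrArg conj (sub_eq_zero.1 h)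
      simpa using this.symm
    have hcs2 : 1 - conj s - 1 ≠ 0 := by
      intro h
      apply hs0
      have h5 : conj s = 0 := by linear_combination -h
      simpa using h5
    have e1 : ∀ w : ℂ, w ≠ 0 → (∀ j, ∀ n : ℕ, (lam j : ℂ) * w + mu j ≠ -(n : ℂ)) →
        (Q : ℂ) ^ w * (∏ j, Complex.Gamma ((lam j : ℂ) * w + mu j)) * (Λ w * jg c Q lam mu J w / (w - 1) ^ m) =
        Λ w * c⁻¹ / (w * (w - 1)) ^ m := by
      intro w hw hw2
      rw [← jg_mul c hQ hJ hw2, mul_pow, ← hmm]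
      have hwm : w ^ m ≠ 0 := pow_ne_zero _ hw
      generalize (∏ j, Complex.Gamma ((lam j : ℂ) * w + mu j)) = V
      generalize (w - 1) ^ m = U
      field_simp
    rw [e1 s hs0 h1, e1 (1 - conj s) hcs1 h2, map_div₀, map_mul, hΛf s, Complex.conj_conj, map_inv₀, map_pow]
    have e2 : conj ((1 - conj s) * (1 - conj s - 1)) = s * (s - 1) := by
      simp only [map_mul, map_sub, map_one, Complex.conj_conj]
      ring
    rw [e2]
    field_simp

end Pool.Agent.H483.ZP
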