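import Pool.Agent.H483.SA.Dat

set_option autoImplicit false

/-!
# The data, with the energy bound
-/

namespace Pool.Agent.H483.ZP

open Filter Topology Set
open Pool.Agent.H483.FE Pool.Agent.H483.SA Pool.Agent.Q240.KS

/-- the bound of the energy by the samples -/
def En2 (γ : ℂ → ℂ) (α y0 K Q : ℝ) : Prop := ∀ h, Good γ h →
  ∫ y, Real.exp (2 * (1 / 2 + α) * y) * ‖dv h y‖ ^ 2 ≤ K * SS α y0 Q h

/-- existence of the data for all large `Q` -/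
theorem data2 {α E θ : ℝ} (hα : 0 < α) (hE : 0 ≤ E) (hθ1 : θ < 1) (hθ0 : 1 / 2 ≤ θ) (hθ : θ ≤ 1 - 2 * α)
    (hPI : PI θ) :
    ∃ y0 K Q₀ : ℝ, y0 ≤ 0 ∧ 0 < K ∧ 1 ≤ Q₀ ∧ ∀ Q : ℝ, Q₀ ≤ Q → ∀ γ : ℂ → ℂ,
      (∀ h, Good γ h → ∃ f', Cls α E (dv h) f') → Dt γ α y0 K Q ∧ En2 γ α y0 K Q := by
  have hα2 : α < 1 / 2 := by linarith
  have hα4 : α ≤ 1 / 4 := by linarith
  obtain ⟨δ, y0, C, hδ, hδ1, hy0, hC, hlow⟩ := lower hα hα2 hE
  obtain ⟨c, Q₁, hc, hQ₁, hPW⟩ := PP_weight (y0 := y0) hα hδ hδ1 hθ1 hθ hPI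
  obtain ⟨B₀, hB2, hB⟩ := bt
  obtain ⟨Q₂, hQ₂, hCW⟩ := comp_window (y0 := y0) hα hα4 hδ hδ1 hB2 hB
  obtain ⟨Cr, hCr, hr⟩ := point_right (y0 := y0) hα hα2 hδ (by linarith) hy0
  obtain ⟨Cl, hCl, hl⟩ := point_left (y0 := y0) hα hα2 hδ (by linarith) hy0
  set K₁ := (1 + E) * (C / c) with hK₁
  have hK₁0 : 0 < K₁ := by positivity
  refine ⟨y0, K₁ * (Cr + Cl + 8000000), max Q₁ Q₂, hy0, by positivity, hQ₁.trans (le_max_left _ _), fun Q hQ γ hcls => ?_⟩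
  have hQa : Q₁ ≤ Q := (le_max_left _ _).trans hQ
  have hQb : Q₂ ≤ Q := (le_max_right _ _).trans hQ
  have hQ1 : 1 ≤ Q := hQ₁.trans hQa
  have hQ0 : 0 < Q := by linarith
  have hsumm : ∀ h, Good γ h → Summable fun n => ww α y0 Q n * ‖dv h (zz Q n)‖ ^ 2 := by
    intro h hg
    obtain ⟨f', hf⟩ := hcls h hg
    exact summ_ww hα hα2 hQ1 hf.dec
  have hAD : ∀ h f', Good γ h → Cls α E (dv h) f' →
      ((∫ y, Real.exp (2 * (1 / 2 + α) * y) * ‖dv h y‖ ^ 2) +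
        ∫ y, Real.exp (2 * (1 / 2 - α) * y) * ‖f' y‖ ^ 2) ≤ K₁ * SS α y0 Q h := by
    intro h f' hg hf
    have h1 := hlow (dv h) f' hf (ww α y0 Q) (zz Q) c (PP α δ y0 Q) hc (ww_nonneg hQ0)
      (fun k p hp => Ioc_subset_Icc_self ((mem_PP hQ0 k p).1 hp).2) (fun k l hkl => PP_disj hδ hQ0 k l hkl)
      (fun k => hPW Q hQa k) (hsumm h hg)
    have h2 := hf.en
    have h3 : (∫ y, Real.exp (2 * (1 / 2 + α) * y) * ‖dv h y‖ ^ 2) ≤ C / c * SS α y0 Q h := h1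
    calc _ ≤ (1 + E) * ∫ y, Real.exp (2 * (1 / 2 + α) * y) * ‖dv h y‖ ^ 2 := by linarith
      _ ≤ (1 + E) * (C / c * SS α y0 Q h) := by gcongr
      _ = _ := by rw [hK₁]; ring
  have hSS0 : ∀ h, 0 ≤ SS α y0 Q h := fun h =>
    tsum_nonneg fun n => mul_nonneg (ww_nonneg hQ0 n) (by positivity)
  refine ⟨⟨hsumm, ?_, ?_, ?_⟩, ?_⟩
  · intro h hg z hz
    obtain ⟨f', hf⟩ := hcls h hg
    have h1 := hl E (dv h) f' hf z hz
    have h2 := hAD h f' hg hf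
    refine h1.trans ?_
    calc _ ≤ Cl * Real.exp (-(2 * (1 / 2 - α)) * z) * (K₁ * SS α y0 Q h) := by gcongr
      _ = (K₁ * Cl) * Real.exp (-(2 * (1 / 2 - α)) * z) * SS α y0 Q h := by ring
      _ ≤ _ := by
          have := hSS0 h
          gcongr
          linarith
  · intro h hg z hz
    obtain ⟨f', hf⟩ := hcls h hg
    have h1 := hr E (dv h) f' hf z hz
    have h2 := hAD h f' hg hf
    refine h1.trans ?_
    calc _ ≤ Cr * Real.exp (-z) * (K₁ * SS α y0 Q h) := by gcongr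
      _ = (K₁ * Cr) * Real.exp (-z) * SS α y0 Q h := by ring
      _ ≤ _ := by
          have := hSS0 h
          gcongr
          linarith
  · intro h hg F hF η hη hη1 hη2
    obtain ⟨f', hf⟩ := hcls h hg
    have h2 := hAD h f' hg hf
    have h3 := upper_sum (y0 := y0) hα hα2 hδ (by linarith) hf F (zz Q)
      (fun n => (n : ℝ) ^ (2 * α) * Q ^ (-(1 + 2 * α)) * cn η Q n)
      (fun n _ => mul_nonneg (by positivity) (cn_nonneg hη.le n)) (fun n hn => (hF n hn).zz_gt hQ0)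
      (ε := 4000000 * (η * (1 + Real.log Q ^ 2) ^ 2)) (by positivity)
      (fun k => hCW Q hQb η hη hη1 hη2 F hF k)
    refine h3.trans ?_
    calc _ ≤ 2 * (4000000 * (η * (1 + Real.log Q ^ 2) ^ 2)) * (K₁ * SS α y0 Q h) := by gcongr
      _ = (K₁ * 8000000) * (η * (1 + Real.log Q ^ 2) ^ 2) * SS α y0 Q h := by ring
      _ ≤ _ := by
          have := hSS0 h
          gcongr
          linarith
  · intro h hg
    obtain ⟨f', hf⟩ := hcls h hg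
    have h2 := hAD h f' hg hf
    have h3 : 0 ≤ ∫ y, Real.exp (2 * (1 / 2 - α) * y) * ‖f' y‖ ^ 2 :=
      MeasureTheory.integral_nonneg fun y => by positivity
    have h4 : K₁ * SS α y0 Q h ≤ K₁ * (Cr + Cl + 8000000) * SS α y0 Q h := by
      have := hSS0 h
      have h5 : K₁ * 1 ≤ K₁ * (Cr + Cl + 8000000) := by
        gcongr
        linarith
      calc _ = K₁ * 1 * SS α y0 Q h := by ring
        _ ≤ _ := by gcongr
    linarith

end Pool.Agent.H483.ZP
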