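import Pool.Agent.H483.ZP.Sep2
import Pool.Agent.H483.SA.Main

set_option autoImplicit false

/-!
# The family
-/

namespace Pool.Agent.H483.ZP

open MeasureTheory Set Filter Topology Complex FourierTransform
open Pool.Agent.H336R4.PF Pool.Agent.H483.FE Pool.Agent.H483.SA
open scoped ComplexConjugate

/-- an entire function not identically zero is not locally zero -/
lemma ev_ne {X : ℂ → ℂ} (hX : Differentiable ℂ X) (hX1 : ∃ s, X s ≠ 0) (ρ : ℂ) : ∀ᶠ z in 𝓝[≠] ρ, X z ≠ 0 := by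
  rcases (hX.analyticAt ρ).eventually_eq_zero_or_eventually_ne_zero with h | h
  · exfalso
    obtain ⟨s, hs⟩ := hX1
    have h2 : AnalyticOnNhd ℂ X univ := fun z _ => hX.analyticAt z
    have h3 := h2.eqOn_zero_of_preconnected_of_eventuallyEq_zero isPreconnected_univ (mem_univ ρ) h
    exact hs (h3 (mem_univ s))
  · exact h

lemma zeros_countable {f : ℂ → ℂ} (hf : Differentiable ℂ f) (h1 : ∃ s, f s ≠ 0) : {z | f z = 0}.Countable := by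
  apply (HereditarilyLindelofSpace.isLindelof _).countable_of_isDiscrete
  rw [isDiscrete_iff_nhdsNE]
  intro x _
  rw [← disjoint_iff, disjoint_principal_right]
  exact ev_ne hf h1 x

section

variable {γ P : ℂ → ℂ} {α : ℝ}

lemma rep_mul (A : Adm γ α) (hP : Differentiable ℂ P) (hb : SB P) {σ : ℝ} (hσ : 0 < σ) (y : ℝ) :
    cexp (-((1:ℝ) * y : ℝ)) * 𝓕 (fun t : ℝ => γ (ln 1 t) * P (ln 1 t)) y =
      cexp (-(σ * y : ℝ)) * 𝓕 (fun t : ℝ => γ (ln σ t) * P (ln σ t)) y := by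
  have key : ∀ a b : ℝ, 0 < a → a ≤ b →
      ∫ t : ℝ, (γ (a + t * I) * P (a + t * I)) * cexp (-(a + t * I) * y) =
      ∫ t : ℝ, (γ (b + t * I) * P (b + t * I)) * cexp (-(b + t * I) * y) := by
    intro a b ha hab
    obtain ⟨C, δ, hδ, hC⟩ := A.decay a b ha hab
    obtain ⟨B, hB⟩ := hb a b
    refine vshift (g := fun z => (γ z * P z) * cexp (-z * y)) (C := (|C| * |B|) * Real.exp ((|a| + |b|) * |y|)) hδ hab
      ?_ ?_
    · intro z hz1 hz2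
      have h1 := A.diff z (by linarith)
      have h2 := hP z
      fun_prop
    · intro z hz1 hz2
      rw [norm_mul, norm_mul, Complex.norm_exp]
      have e : (-z * (y:ℂ)).re = -z.re * y := by simp
      rw [e]
      have h1 : -z.re * y ≤ (|a| + |b|) * |y| := by
        have h2 : |z.re| ≤ |a| + |b| := by
          rw [abs_le]
          constructor
          · have := neg_abs_le a; have := abs_nonneg b; linarith
          · have := le_abs_self b; have := abs_nonneg a; linarith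
        calc -z.re * y ≤ |-z.re * y| := le_abs_self _
          _ = |z.re| * |y| := by rw [abs_mul, abs_neg]
          _ ≤ _ := by gcongr
      have h2 : ‖γ z‖ ≤ |C| * Real.exp (-δ * |z.im|) :=
        (hC z hz1 hz2).trans (mul_le_mul_of_nonneg_right (le_abs_self _) (Real.exp_pos _).le)
      have h3 : ‖P z‖ ≤ |B| := (hB z hz1 hz2).trans (le_abs_self _)
      calc _ ≤ ((|C| * Real.exp (-δ * |z.im|)) * |B|) * Real.exp ((|a| + |b|) * |y|) := by gcongr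
        _ = _ := by ring
  have e1 := rep_eq_int (fun s => γ s * P s) 1 y
  have e2 := rep_eq_int (fun s => γ s * P s) σ y
  beta_reduce at e1 e2
  rw [e1, e2]
  congr 1
  rcases le_total 1 σ with h | h
  · exact_mod_cast key 1 σ one_pos h
  · exact_mod_cast (key σ 1 hσ h).symm

/-- the good function with the entire symbol `P` -/
noncomputable def gof (γ P : ℂ → ℂ) (y : ℝ) : ℂ := cexp (-((1:ℝ) * y : ℝ)) * 𝓕 (fun t : ℝ => γ (ln 1 t) * P (ln 1 t)) y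

lemma gof_rep (A : Adm γ α) (hP : Differentiable ℂ P) (hb : SB P) {σ : ℝ} (hσ : 0 < σ) (y : ℝ) :
    gof γ P y = cexp (-(σ * y : ℝ)) * 𝓕 (fun t : ℝ => γ (ln σ t) * P (ln σ t)) y := rep_mul A hP hb hσ y

lemma gof_good (A : Adm γ α) (hP : Differentiable ℂ P) (hb : SB P) (hs : ∀ s, P (1 - conj s) = -conj (P s)) :
    Good γ (gof γ P) := by
  refine ⟨P, hP.continuous, fun σ => ?_, hs, fun σ hσ y => gof_rep A hP hb hσ y⟩
  obtain ⟨C, hC⟩ := hb σ σ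
  exact ⟨C, fun t => hC _ (by simp) (by simp)⟩

lemma kk_SB {f : ℂ → ℂ} (hf : Differentiable ℂ f) (hb : SB f) (ρ : ℂ) : SB (kk f ρ) := by
  intro a b
  obtain ⟨C, hC, h⟩ := kk_decay hf hb ρ a b
  refine ⟨C, fun s h1 h2 => (h s h1 h2).trans ?_⟩
  apply mul_le_of_le_one_right hC
  rw [Real.exp_le_one_iff]
  have := abs_nonneg s.im
  linarith

end

/-- **The completed functions.** -/
theorem completed {γ X : ℂ → ℂ} {α y0 K Q : ℝ} (A : Adm γ α) (hQ : 0 < Q) (D : Dt γ α y0 K Q)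
    (hE : En2 γ α y0 K Q) (hK : 0 < K) (hy0 : y0 ≤ 0)
    (hrel : ∃ R : ℝ, 0 < R ∧ ∀ v : L2, ‖v‖ ≤ R → ∃ a : ℕ → ℂ,
      (∀ p, ¬ p.Prime → a p = 0) ∧
      (∀ p, ‖a p‖ ≤ 1) ∧ (∃ C : ℝ, ∀ p : ℕ, ‖a p‖ ^ 2 ≤ C * (p : ℝ) ^ (4 * α - 1)) ∧
      (Summable fun n : ℕ => ‖cf a n‖ ^ 2 * (n : ℝ) ^ (-(2 * α))) ∧
      ∀ h, ∀ hg : Good γ h, HasSum (fun n : ℕ => (cf a n * h (zz Q n)).re) (inner ℝ v (TS A hQ D ⟨h, hg⟩)))
    (hγ : ∀ s : ℂ, 0 < s.re → γ s ≠ 0) (hX : Differentiable ℂ X) (hXs : ∀ s, X (1 - conj s) = conj (X s)) (hXb : SB X)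
    (hX1 : ∃ s, X s ≠ 0) :
    ∃ (a : ℕ → ℂ) (Λ : ℂ → ℂ), (∀ p, ¬ p.Prime → a p = 0) ∧ (∀ p, ‖a p‖ ≤ 1) ∧
      (Summable fun n : ℕ => ‖cf a n‖ ^ 2 * (n : ℝ) ^ (-(2 * α))) ∧
      Differentiable ℂ Λ ∧ (∀ s, Λ (1 - conj s) = conj (Λ s)) ∧ SB Λ ∧
      (∀ s : ℂ, 1 / 2 + α < s.re → LSeriesSummable (cf a) s ∧ Λ s = (Q : ℂ) ^ s * (γ s * X s) * LSeries (cf a) s) ∧
      ∀ ρ : ℂ, X ρ = 0 → |ρ.re - 1 / 2| < α → Λ ρ ≠ 0 := by
  have hα := A.pos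
  have hα2 := A.lt
  obtain ⟨R, hR, hrel⟩ := hrel
  have A1 := adm_mul A hX hXs hXb
  set T := TS A hQ D with hT
  set M : Submodule ℝ L2 := ((GS A1).comap (GS A).subtype).map T with hM
  set Z : Set ℂ := {ρ | X ρ = 0} ∩ {ρ | |ρ.re - 1 / 2| < α} with hZ
  have hZc : Z.Countable := (zeros_countable hX hX1).mono inter_subset_left
  have : Countable Z := hZc.to_subtype
  have hkg : ∀ ρ : Z, Good γ (gof γ (kk X ρ)) := fun ρ =>
    gof_good A (kk_diff hX ρ) (kk_SB hX hXb ρ) (kk_sym hX hXs ρ.2.1)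
  obtain ⟨v, hvM, hvR, hv⟩ := hilb M (fun ρ : Z => T ⟨gof γ (kk X ρ), hkg ρ⟩) (by
    intro ρ
    obtain ⟨θ, hθ, h⟩ := sep A hQ D hE hK hy0 hγ hX hXs hXb hX1 ρ.2.2 ρ.2.1 (hkg ρ)
      (fun σ hσ y => gof_rep A (kk_diff hX ρ) (kk_SB hX hXb ρ) hσ y)
    refine ⟨θ, hθ, ?_⟩
    rintro _ ⟨k, hk, rfl⟩
    exact h (k : ℝ → ℂ) hk) hR
  obtain ⟨a, ha1, ha2, -, ha4, ha5⟩ := hrel v hvR
  have hr : ∀ h, Good (fun s => γ s * X s) h → HasSum (fun n : ℕ => (cf a n * h (zz Q n)).re) 0 := by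
    intro h hh
    have h1 := ha5 h (good_mul hX hXs hXb hh)
    have h2 : inner ℝ v (T ⟨h, good_mul hX hXs hXb hh⟩) = 0 := by
      rw [real_inner_comm]
      exact (Submodule.mem_orthogonal M v).1 hvM _ ⟨⟨h, good_mul hX hXs hXb hh⟩, hh, rfl⟩
    rw [h2] at h1
    exact h1
  obtain ⟨Λ, hΛd, hΛf, hΛb, hΛs⟩ := core_of (adm_scale A1 hQ) (cf_zero' a) ha4 (fun h hg => by
    have h1 := hr _ (good_scale hQ hg)
    refine h1.congr_fun fun n => ?_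
    unfold zz
    simp)
  have hsym : ∀ s, Λ (1 - conj s) = conj (Λ s) := by
    intro s
    have := hΛf (1 - conj s)
    rw [cc_eq] at this
    exact this
  have hser : ∀ s : ℂ, 1 / 2 + α < s.re →
      LSeriesSummable (cf a) s ∧ Λ s = (Q : ℂ) ^ s * (γ s * X s) * LSeries (cf a) s := hΛs
  refine ⟨a, Λ, ha1, ha2, ha4, hΛd, hsym, hΛb, hser, ?_⟩
  intro ρ hXρ hρ hΛρ
  have hab := abs_lt.1 hρ
  have h1 := lemN A hQ (cf_zero' a) ha4 hX hXs hXb hΛd hsym hΛb (fun s hs => (hser s hs).2) (ρ := ρ) (by linarith)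
    (by linarith) hXρ hΛρ (g := gof γ (kk X ρ))
    (fun σ hσ y => gof_rep A (kk_diff hX ρ) (kk_SB hX hXb ρ) hσ y)
  have h2 := ha5 _ (hkg ⟨ρ, hXρ, hρ⟩)
  exact hv ⟨ρ, hXρ, hρ⟩ (h2.unique h1)

variable {r : ℕ}

lemma g2_mul (c : ℂ) (lam : Fin r → ℝ) (mu : Fin r → ℂ) (m : ℕ) (s : ℂ) : g2 c lam mu m s = c * g2 1 lam mu m s := by
  unfold g2 gm; ring

/-- the ratio of the kernels with a unimodular constant -/
lemma rho_unit {γ γ' : ℂ → ℂ} {c : ℂ} (hc : ‖c‖ = 1) (he : ∀ s, γ' s = c * γ s) {α C : ℝ} (h : Rho γ α C) :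
    Rho γ' α C := by
  obtain ⟨ρ, ρ', h1, h2, h3, h4, h5⟩ := h
  have hc0 : c ≠ 0 := by rintro rfl; simp at hc
  have hc0' : conj c ≠ 0 := by simpa using hc0
  have hn : ‖c / conj c‖ = 1 := by rw [norm_div, Complex.norm_conj, hc]; norm_num
  refine ⟨fun t => (c / conj c) * ρ t, fun t => (c / conj c) * ρ' t, fun t => (h1 t).const_mul _, by fun_prop,
    fun t => ?_, fun t => ?_, fun t => ?_⟩
  · rw [norm_mul, hn, one_mul]; exact h3 t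
  · rw [norm_mul, hn, one_mul]; exact h4 t
  · rw [he, he, h5 t, map_mul]
    field_simp

/-- **The family.** -/
theorem family2 {lam : Fin r → ℝ} {mu : Fin r → ℂ} (hl : ∀ j, 0 < lam j) (hm : ∀ j, 0 ≤ (mu j).re) {m : ℕ} (hm1 : 1 ≤ m)
    {α : ℝ} (hα0 : 0 < α) (hα : α ≤ 77 / 400) (h1 : 1 < (∑ j, lam j - m / 2) * (2 * α)) :
    ∃ Q₀ : ℝ, 1 ≤ Q₀ ∧ ∀ Q : ℝ, Q₀ ≤ Q → ∀ c : ℂ, ‖c‖ = 1 → ∃ (a : ℕ → ℂ) (Λ : ℂ → ℂ),
      (∀ p, ¬ p.Prime → a p = 0) ∧ (∀ p, ‖a p‖ ≤ 1) ∧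
      (Summable fun n : ℕ => ‖cf a n‖ ^ 2 * (n : ℝ) ^ (-(2 * α))) ∧
      Differentiable ℂ Λ ∧ (∀ s, Λ (1 - conj s) = conj (Λ s)) ∧ SB Λ ∧
      (∀ s : ℂ, 1 / 2 + α < s.re → LSeriesSummable (cf a) s ∧
        Λ s = (Q : ℂ) ^ s * (gm c lam mu s * (s * Zf s) ^ m) * LSeries (cf a) s) ∧
      ∀ ρ : ℂ, riemannZeta ρ = 0 → |ρ.re - 1 / 2| < α → Λ ρ ≠ 0 := by
  have hα2 : α < 1 / 2 := by linarith
  have hA : ∀ c : ℂ, c ≠ 0 → Adm (g2 c lam mu m) α := fun c hc => g2_Adm hc hl hm m hα0 hα2 h1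
  obtain ⟨C, hC, hR⟩ := g2_Rho one_ne_zero hl hm m hα0 hα2 h1
  obtain ⟨y0, K, Q₁, hy0, hK, hQ₁, hdat⟩ := data2 (α := α) (E := 50 * (4 * C ^ 2)) (θ := 0.615) hα0 (by positivity)
    (by norm_num) (by norm_num) (by norm_num; linarith) pi_main
  obtain ⟨Q₂, hQ₂, hrel⟩ := relations2 (α := α) (y0 := y0) (K := K) hα0 (by linarith) hK
  refine ⟨max Q₁ Q₂, hQ₁.trans (le_max_left _ _), fun Q hQ c hc => ?_⟩
  have hQ1 : 1 ≤ Q := (hQ₁.trans (le_max_left _ _)).trans hQ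
  have hQ0 : 0 < Q := by linarith
  have hc0 : c ≠ 0 := by rintro rfl; simp at hc
  have hAc := hA c hc0
  have hRc : Rho (g2 c lam mu m) α C := rho_unit hc (fun s => g2_mul c lam mu m s) hR
  obtain ⟨hD, hE⟩ := hdat Q ((le_max_left _ _).trans hQ) (g2 c lam mu m) (by
    intro h hg
    obtain ⟨f', g1, g2, g3, g4, g5⟩ := dv_energy hAc hC hRc h hg
    exact ⟨f', ⟨g1, g2, g3, g4, g5⟩⟩)
  obtain ⟨a, Λ, k1, k2, k3, k4, k5, k6, k7, k8⟩ := completed (X := XX m) hAc hQ0 hD hE hK hy0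
    (hrel Q ((le_max_right _ _).trans hQ) _ hAc hQ0 hD) (fun s hs => g2_ne hc0 hl hm m hs) (XX_diff m) (XX_sym m)
    (XX_SB m) ⟨1, by rw [XX_one]; exact one_ne_zero⟩
  refine ⟨a, Λ, k1, k2, k3, k4, k5, k6, fun s hs => ?_, fun ρ hρ hρ2 => ?_⟩
  · have h2 := k7 s hs
    have h3 := g1_eq c lam mu m (s := s) (by linarith)
    unfold g1 at h3
    rw [h3] at h2
    exact h2
  · refine k8 ρ (XX_zero hm1 ?_ hρ) hρ2
    have := (abs_lt.1 hρ2).1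
    linarith

end Pool.Agent.H483.ZP
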