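import Pool.Agent.H483.SA.Main

set_option autoImplicit false

/-!
# Kernels: gamma factors divided by powers of the gamma factor of `ζ`
-/

namespace Pool.Agent.H483.ZP

open Set Filter Topology Complex Asymptotics
open Pool.Agent.H483.FE Pool.Agent.H483.SA
open scoped ComplexConjugate

/-- decay of a quotient in a strip -/
lemma q_strip {q : ℂ → ℂ} (hq : ∀ s : ℂ, 0 < s.re → s.re < 1 → DifferentiableAt ℂ q s) (hU : UpB q 0)
    {e : ℝ → ℝ} (hA : ∀ σ : ℝ, 0 < σ → σ < 1 → Asy (fun t : ℝ => q ((σ : ℂ) + t * I)) (e σ) 0)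
    {a b : ℝ} (ha : 0 < a) (hab : a < b) (hb : b < 1) (hea : e a ≤ -1) (heb : e b ≤ -1) :
    ∃ C : ℝ, 0 ≤ C ∧ ∀ s : ℂ, a ≤ s.re → s.re ≤ b → (1 + |s.im|) * ‖q s‖ ≤ C := by
  have line : ∀ σ : ℝ, 0 < σ → σ < 1 → e σ ≤ -1 → ∃ C : ℝ, 0 ≤ C ∧ ∀ s : ℂ, s.re = σ → (1 + |s.im|) * ‖q s‖ ≤ C := by
    intro σ h0 h1 he
    obtain ⟨C, hC, h⟩ := ratio_of_Asy (hA σ h0 h1) (const_Asy (c := 1) one_ne_zero) (by linarith)
      (line_cont fun s hs => hq s (by linarith) (by linarith)) continuous_const (fun _ => one_ne_zero)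
    refine ⟨C, hC, fun s hs => ?_⟩
    have := h s.im
    rw [norm_one, mul_one, ← hs, Complex.re_add_im] at this
    exact this
  obtain ⟨Ca, hCa, hA'⟩ := line a ha (by linarith) hea
  obtain ⟨Cb, hCb, hB'⟩ := line b (by linarith) hb heb
  obtain ⟨C0, M, T, hC0, hM, hUb⟩ := hU a b hab.le
  set F : ℂ → ℂ := fun s => (s + 1) * q s with hF
  have hup : ∀ s : ℂ, a ≤ s.re → s.re ≤ b → ‖s + 1‖ ≤ (b + 1) * (1 + |s.im|) := by
    intro s hs hs'
    refine (Complex.norm_le_abs_re_add_abs_im _).trans ?_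
    have e1 : (s + 1).re = s.re + 1 := by simp
    have e2 : (s + 1).im = s.im := by simp
    rw [e1, e2, abs_of_nonneg (by linarith)]
    have := abs_nonneg s.im
    nlinarith
  have hlow : ∀ s : ℂ, a ≤ s.re → (1 + |s.im|) / 2 ≤ ‖s + 1‖ := by
    intro s hs
    have k1 : 1 ≤ ‖s + 1‖ := by
      refine le_trans ?_ (Complex.re_le_norm _)
      simp
      linarith
    have k2 : |s.im| ≤ ‖s + 1‖ := by
      have := Complex.abs_im_le_norm (s + 1)
      simpa using this
    linarith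
  have hmain : ∀ s : ℂ, a ≤ s.re → s.re ≤ b → ‖F s‖ ≤ (b + 1) * (Ca + Cb) := by
    intro s hs1 hs2
    refine PhragmenLindelof.vertical_strip (a := a) (b := b) ?_ ?_ ?_ ?_ hs1 hs2
    · apply DifferentiableOn.diffContOnCl
      intro z hz
      have hz' : z ∈ re ⁻¹' (Icc a b) := by
        have : closure (re ⁻¹' Ioo a b) ⊆ re ⁻¹' (Icc a b) := by
          apply closure_minimal (preimage_mono Ioo_subset_Icc_self)
          exact isClosed_Icc.preimage Complex.continuous_re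
        exact this hz
      have hz1 : a ≤ z.re := hz'.1
      have hz2 : z.re ≤ b := hz'.2
      apply DifferentiableAt.differentiableWithinAt
      exact DifferentiableAt.mul (by fun_prop) (hq z (by linarith) (by linarith))
    · have hpi : 0 < Real.pi / (b - a) := div_pos Real.pi_pos (by linarith)
      set c0 := Real.pi / (b - a) / 2 with hc0
      have hc00 : 0 < c0 := by positivity
      refine ⟨c0, by linarith, (M + 1) / c0, ?_⟩
      apply IsBigO.of_bound ((b + 1) * C0)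
      rw [eventually_inf_principal]
      have hev : ∀ᶠ z : ℂ in comap (fun z : ℂ => |z.im|) atTop, T ≤ |z.im| :=
        (eventually_ge_atTop T).comap _
      filter_upwards [hev] with z hzT hz
      have hz1 : a ≤ z.re := hz.1.le
      have hz2 : z.re ≤ b := hz.2.le
      rw [Real.norm_eq_abs, Real.abs_exp]
      have k1 := hUb z hz1 hz2 hzT
      have e0 : st M 0 z.im = (1 + |z.im|) ^ M := by unfold st; simp
      rw [e0] at k1
      have h0 : 0 ≤ |z.im| := abs_nonneg _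
      have k3 : 1 + |z.im| ≤ Real.exp |z.im| := by linarith [Real.add_one_le_exp |z.im|]
      have k4 : (1 + |z.im|) * (1 + |z.im|) ^ M ≤ Real.exp ((M + 1) * |z.im|) := by
        calc _ ≤ Real.exp |z.im| * (Real.exp |z.im|) ^ M := by gcongr
          _ = _ := by rw [← Real.exp_mul, ← Real.exp_add]; congr 1; ring
      have k5 : (M + 1) * |z.im| ≤ (M + 1) / c0 * Real.exp (c0 * |z.im|) := by
        have := Real.add_one_le_exp (c0 * |z.im|)
        calc (M + 1) * |z.im| = (M + 1) / c0 * (c0 * |z.im|) := by field_simp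
          _ ≤ _ := by gcongr; linarith
      simp only [hF]
      rw [norm_mul]
      calc _ ≤ ((b + 1) * (1 + |z.im|)) * (C0 * (1 + |z.im|) ^ M) := by
            have h5 := hup z hz1 hz2
            exact mul_le_mul h5 k1 (norm_nonneg _) ((norm_nonneg _).trans h5)
        _ = (b + 1) * C0 * ((1 + |z.im|) * (1 + |z.im|) ^ M) := by ring
        _ ≤ (b + 1) * C0 * Real.exp ((M + 1) * |z.im|) := by
            have : 0 ≤ (b + 1) * C0 := mul_nonneg (by linarith) hC0
            gcongr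
        _ ≤ _ := by
            have : 0 ≤ (b + 1) * C0 := mul_nonneg (by linarith) hC0
            gcongr
    · intro z hz
      simp only [hF]
      rw [norm_mul]
      have h2 := hup z hz.ge (by linarith)
      have h3 := hA' z hz
      calc _ ≤ ((b + 1) * (1 + |z.im|)) * ‖q z‖ := by gcongr
        _ = (b + 1) * ((1 + |z.im|) * ‖q z‖) := by ring
        _ ≤ _ := by
            apply mul_le_mul_of_nonneg_left _ (by linarith)
            linarith
    · intro z hz
      simp only [hF]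
      rw [norm_mul]
      have h2 := hup z (by linarith) hz.le
      have h3 := hB' z hz
      calc _ ≤ ((b + 1) * (1 + |z.im|)) * ‖q z‖ := by gcongr
        _ = (b + 1) * ((1 + |z.im|) * ‖q z‖) := by ring
        _ ≤ _ := by
            apply mul_le_mul_of_nonneg_left _ (by linarith)
            linarith
  refine ⟨2 * ((b + 1) * (Ca + Cb)), by have : 0 < b + 1 := by linarith
                                        positivity, fun s hs1 hs2 => ?_⟩
  have k1 := hmain s hs1 hs2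
  have k2 := hlow s hs1
  simp only [hF] at k1
  rw [norm_mul] at k1
  have k3 : (1 + |s.im|) / 2 * ‖q s‖ ≤ ‖s + 1‖ * ‖q s‖ := by gcongr
  linarith

/-- from a quotient to `Rho` -/
theorem rho_of {q : ℂ → ℂ} (hq : ∀ s : ℂ, 0 < s.re → s.re < 1 → DifferentiableAt ℂ q s) (hU : UpB q 0) {S : ℝ}
    (hA : ∀ σ : ℝ, 0 < σ → σ < 1 → Asy (fun t : ℝ => q ((σ : ℂ) + t * I)) ((2 * σ - 1) * S) 0)
    {α : ℝ} (hα : 0 < α) (hα2 : α < 1 / 2) (h1 : 1 < S * (2 * α)) {γ : ℂ → ℂ}
    (hγ : ∀ t : ℝ, γ (ln (1 / 2 - α) t) = q (ln (1 / 2 - α) t) * conj (γ (ln (1 / 2 + α) t))) :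
    ∃ C : ℝ, 0 ≤ C ∧ Rho γ α C := by
  have hS : 0 < S := by
    by_contra hcon
    push Not at hcon
    nlinarith
  obtain ⟨ε, hε, hε1, hε2⟩ : ∃ ε : ℝ, 0 < ε ∧ ε < 1 / 2 - α ∧ 1 ≤ (1 - 2 * (1 / 2 - α + ε)) * S := by
    set e0 := (S * (2 * α) - 1) / (2 * S) with he0
    have he00 : 0 < e0 := by rw [he0]; apply div_pos <;> linarith
    refine ⟨min e0 ((1 / 2 - α) / 2), lt_min he00 (by linarith), ?_, ?_⟩
    · exact lt_of_le_of_lt (min_le_right _ _) (by linarith)
    · have h3 : min e0 ((1 / 2 - α) / 2) ≤ e0 := min_le_left _ _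
      have h4 : e0 * (2 * S) = S * (2 * α) - 1 := by rw [he0]; field_simp
      nlinarith
  obtain ⟨C, hC, hstrip⟩ := q_strip hq hU hA (a := 1 / 2 - α - ε) (b := 1 / 2 - α + ε) (by linarith) (by linarith)
    (by linarith) (by nlinarith) (by linarith)
  have hpi := Real.pi_pos
  have hopen : IsOpen {s : ℂ | 0 < s.re ∧ s.re < 1} :=
    (isOpen_lt continuous_const Complex.continuous_re).inter (isOpen_lt Complex.continuous_re continuous_const)
  have hhol : DifferentiableOn ℂ q {s : ℂ | 0 < s.re ∧ s.re < 1} := fun s hs =>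
    (hq s hs.1 hs.2).differentiableWithinAt
  have hdcont : ContinuousOn (deriv q) {s : ℂ | 0 < s.re ∧ s.re < 1} :=
    (hhol.deriv hopen).continuousOn
  have hline0 : ∀ t : ℝ, 0 < (ln (1 / 2 - α) t).re ∧ (ln (1 / 2 - α) t).re < 1 := by
    intro t; simp only [ln_re]; constructor <;> linarith
  refine ⟨C + 2 * Real.pi * (C * (1 + ε) / ε), by positivity, fun t => q (ln (1 / 2 - α) t),
    fun t => deriv q (ln (1 / 2 - α) t) * ((2 * Real.pi : ℝ) * I), ?_, ?_, ?_, ?_, hγ⟩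
  · intro t
    have h2 : HasDerivAt (fun t : ℝ => ln (1 / 2 - α) t) (((2 * Real.pi : ℝ) : ℂ) * I) t := by
      unfold ln
      have h3 : HasDerivAt (fun t : ℝ => ((2 * Real.pi * t : ℝ) : ℂ)) ((2 * Real.pi : ℝ) : ℂ) t := by
        have := (hasDerivAt_id t).const_mul (2 * Real.pi)
        simpa using! this.ofReal_comp
      simpa using! (h3.mul_const I).const_add ((1 / 2 - α : ℝ) : ℂ)
    exact (hq _ (hline0 t).1 (hline0 t).2).hasDerivAt.comp t h2
  · apply Continuous.mul _ continuous_const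
    rw [continuous_iff_continuousAt]
    intro t
    have h2 : ContinuousAt (deriv q) (ln (1 / 2 - α) t) :=
      hdcont.continuousAt (hopen.mem_nhds (hline0 t))
    exact ContinuousAt.comp (g := deriv q) (f := ln (1 / 2 - α)) h2 (ln_cont _).continuousAt
  · intro t
    have h2 := hstrip (ln (1 / 2 - α) t) (by simp; linarith) (by simp; linarith)
    rw [ln_im, abs_mul, abs_of_pos (by positivity : 0 < 2 * Real.pi)] at h2
    have h3 : 1 + |t| ≤ 1 + 2 * Real.pi * |t| := by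
      have := Real.pi_gt_three
      nlinarith [abs_nonneg t]
    have h4 : 0 ≤ 2 * Real.pi * (C * (1 + ε) / ε) := by positivity
    calc _ ≤ (1 + 2 * Real.pi * |t|) * ‖q (ln (1 / 2 - α) t)‖ := by gcongr
      _ ≤ _ := by linarith
  · intro t
    set s0 := ln (1 / 2 - α) t with hs0
    have hd : ‖deriv q s0‖ ≤ (C * (1 + ε) / (1 + |s0.im|)) / ε := by
      apply Complex.norm_deriv_le_of_forall_mem_sphere_norm_le hε
      · apply DifferentiableOn.diffContOnCl
        intro z hz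
        rw [closure_ball _ hε.ne', Metric.mem_closedBall, dist_eq_norm] at hz
        apply DifferentiableAt.differentiableWithinAt
        have h5 := Complex.abs_re_le_norm (z - s0)
        rw [Complex.sub_re, hs0, ln_re] at h5
        have h5' := h5.trans hz
        rw [abs_le] at h5'
        exact hq z (by linarith [h5'.1]) (by linarith [h5'.2])
      · intro z hz
        rw [mem_sphere_iff_norm] at hz
        have h5 := Complex.abs_re_le_norm (z - s0)
        rw [Complex.sub_re, hz, hs0, ln_re, abs_le] at h5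
        have h6 := Complex.abs_im_le_norm (z - s0)
        rw [Complex.sub_im, hz] at h6
        have h7 := hstrip z (by linarith [h5.1]) (by linarith [h5.2])
        have h8 : |s0.im| ≤ |z.im| + ε := by
          have := abs_sub_abs_le_abs_sub s0.im z.im
          rw [abs_sub_comm] at h6
          linarith
        have h9 := abs_nonneg z.im
        rw [le_div_iff₀ (by positivity)]
        calc ‖q z‖ * (1 + |s0.im|) ≤ ‖q z‖ * ((1 + ε) * (1 + |z.im|)) := by
              gcongr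
              nlinarith
          _ = (1 + ε) * ((1 + |z.im|) * ‖q z‖) := by ring
          _ ≤ (1 + ε) * C := by gcongr
          _ = _ := by ring
    rw [norm_mul, norm_mul, Complex.norm_I, mul_one, Complex.norm_real, Real.norm_eq_abs,
      abs_of_pos (by positivity : 0 < 2 * Real.pi)]
    have h3 : 1 + |t| ≤ 1 + |s0.im| := by
      rw [hs0, ln_im, abs_mul, abs_of_pos (by positivity : 0 < 2 * Real.pi)]
      have := Real.pi_gt_three
      nlinarith [abs_nonneg t]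
    calc _ ≤ (1 + |s0.im|) * (((C * (1 + ε) / (1 + |s0.im|)) / ε) * (2 * Real.pi)) := by gcongr
      _ = 2 * Real.pi * (C * (1 + ε) / ε) := by
          have : 1 + |s0.im| ≠ 0 := by have := abs_nonneg s0.im; positivity
          field_simp
      _ ≤ _ := by linarith

lemma UpB_pow {f : ℂ → ℂ} {κ : ℝ} (hf : UpB f κ) (n : ℕ) : UpB (fun s => f s ^ n) (n * κ) := by
  have h := UpB.prod (Finset.range n) (f := fun _ => f) (κ := fun _ => κ) (fun _ _ => hf)
  simpa using h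

lemma Asy_pow {f : ℝ → ℂ} {e κ : ℝ} (hf : Asy f e κ) (n : ℕ) : Asy (fun s => f s ^ n) (n * e) (n * κ) := by
  have h := Asy.prod (Finset.range n) (f := fun _ => f) (e := fun _ => e) (κ := fun _ => κ) (fun _ _ => hf)
  simpa using h

/-- the gamma factor of `ζ` -/
lemma gR_eq (s : ℂ) : Gammaℝ s = (((Real.sqrt Real.pi)⁻¹ : ℝ) : ℂ) ^ s * Complex.Gamma (((1 / 2 : ℝ) : ℂ) * s + 0) := by
  have hpi := Real.pi_pos
  have h0 : (Real.pi : ℂ) ≠ 0 := by exact_mod_cast hpi.ne'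
  have h1 : ((((Real.sqrt Real.pi)⁻¹ : ℝ)) : ℂ) ≠ 0 := by
    have : (Real.sqrt Real.pi)⁻¹ ≠ 0 := by positivity
    exact_mod_cast this
  rw [Gammaℝ_def]
  congr 1
  · rw [Complex.cpow_def_of_ne_zero h0, Complex.cpow_def_of_ne_zero h1, ← Complex.ofReal_log hpi.le,
      ← Complex.ofReal_log (by positivity), Real.log_inv, Real.log_sqrt hpi.le]
    congr 1
    push_cast
    ring
  · congr 1
    push_cast
    ring

lemma sp_pos : 0 < (Real.sqrt Real.pi)⁻¹ := by have := Real.pi_pos; positivity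

lemma gR_UpB : UpB Gammaℝ (1 / 2) := by
  have h := (Q_UpB sp_pos).mul (Gamma_UpB (l := 1 / 2) (by norm_num) 0)
  rw [zero_add] at h
  convert h using 1
  funext s
  exact gR_eq s

lemma gR_Asy (σ : ℝ) : Asy (fun t : ℝ => Gammaℝ ((σ : ℂ) + t * I)) (1 / 2 * σ - 1 / 2) (1 / 2) := by
  have h := (Q_Asy sp_pos σ).mul (Gamma_Asy (l := 1 / 2) (by norm_num) 0 σ)
  simp only [Complex.zero_re, add_zero, zero_add] at h
  convert h using 1
  funext t
  rw [gR_eq]
  simp

/-- its reciprocal -/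
noncomputable def rg (s : ℂ) : ℂ := (Gammaℝ s)⁻¹

lemma rg_diff : Differentiable ℂ rg := differentiable_Gammaℝ_inv

lemma rg_UpB : UpB rg (-(1 / 2)) := by
  have h := (Q_UpB (Q := Real.sqrt Real.pi) (by have := Real.pi_pos; positivity)).mul
    (invGamma_UpB (l := 1 / 2) (by norm_num) 0)
  rw [zero_add] at h
  convert h using 1
  funext s
  unfold rg
  have hpi := Real.pi_pos
  rw [gR_eq, mul_inv]
  congr 1
  have h1 : ((Real.sqrt Real.pi : ℝ) : ℂ) ≠ 0 := by
    have : Real.sqrt Real.pi ≠ 0 := by positivity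
    exact_mod_cast this
  rw [Complex.ofReal_inv, Complex.inv_cpow _ _ (by
    rw [Complex.arg_ofReal_of_nonneg (Real.sqrt_nonneg _)]; exact hpi.ne), inv_inv]

lemma rg_Asy (σ : ℝ) : Asy (fun t : ℝ => rg ((σ : ℂ) + t * I)) (-(1 / 2 * σ - 1 / 2)) (-(1 / 2)) :=
  (gR_Asy σ).inv

lemma gR_conj (s : ℂ) : Gammaℝ (conj s) = conj (Gammaℝ s) := by
  rw [gR_eq, gR_eq, map_mul, ← Complex.Gamma_conj]
  congr 1
  · have h := Complex.conj_cpow (((Real.sqrt Real.pi)⁻¹ : ℝ) : ℂ) (conj s) (by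
      rw [Complex.arg_ofReal_of_nonneg sp_pos.le]; exact Real.pi_pos.ne)
    rw [Complex.conj_conj, Complex.conj_ofReal] at h
    exact h
  · rw [add_zero, add_zero, map_mul, Complex.conj_ofReal]

variable {r : ℕ}

/-- the kernel -/
noncomputable def g2 (c : ℂ) (lam : Fin r → ℝ) (mu : Fin r → ℂ) (m : ℕ) (s : ℂ) : ℂ := gm c lam mu s * rg s ^ m

/-- the quotient -/
noncomputable def q2 (c : ℂ) (lam : Fin r → ℝ) (mu : Fin r → ℂ) (m : ℕ) (s : ℂ) : ℂ :=
  GG c lam mu s * (rg s * Gammaℝ (1 - s)) ^ m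

lemma gR1_UpB : UpB (fun s => Gammaℝ (1 - s)) (1 / 2) := by
  refine UpB.reflect gR_UpB fun s => le_of_eq ?_
  have e : 1 - s = conj (1 - conj s) := by simp
  conv_lhs => rw [e, gR_conj, Complex.norm_conj]

lemma gR1_Asy (σ : ℝ) : Asy (fun t : ℝ => Gammaℝ (1 - ((σ : ℂ) + t * I))) (1 / 2 * (1 - σ) - 1 / 2) (1 / 2) := by
  refine asy_of_norm (gR_Asy (1 - σ)) fun t => ?_
  have e : 1 - ((σ : ℂ) + t * I) = conj (((1 - σ : ℝ) : ℂ) + t * I) := by
    simp only [map_add, map_mul, Complex.conj_ofReal, Complex.conj_I]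
    push_cast
    ring
  rw [e, gR_conj, Complex.norm_conj]

lemma q2_UpB (c : ℂ) {lam : Fin r → ℝ} (mu : Fin r → ℂ) (hl : ∀ j, 0 < lam j) (m : ℕ) : UpB (q2 c lam mu m) 0 := by
  have h := (GG_UpB c mu hl).mul (UpB_pow (rg_UpB.mul gR1_UpB) m)
  have e : (0:ℝ) + m * (-(1 / 2) + 1 / 2) = 0 := by ring
  rw [e] at h
  exact h

lemma q2_Asy {c : ℂ} (hc : c ≠ 0) {lam : Fin r → ℝ} (mu : Fin r → ℂ) (hl : ∀ j, 0 < lam j) (m : ℕ) (σ : ℝ) :
    Asy (fun t : ℝ => q2 c lam mu m ((σ : ℂ) + t * I)) ((2 * σ - 1) * (∑ j, lam j - m / 2)) 0 := by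
  have h := (GG_Asy hc mu hl σ).mul (Asy_pow ((rg_Asy σ).mul (gR1_Asy σ)) m)
  have e : (0:ℝ) + m * (-(1 / 2) + 1 / 2) = 0 := by ring
  have e2 : (2 * σ - 1) * ∑ j, lam j + m * (-(1 / 2 * σ - 1 / 2) + (1 / 2 * (1 - σ) - 1 / 2)) =
      (2 * σ - 1) * (∑ j, lam j - m / 2) := by ring
  rw [e, e2] at h
  exact h

lemma gR_diff {s : ℂ} (hs : 0 < s.re) : DifferentiableAt ℂ Gammaℝ s := by
  have h : Gammaℝ = fun s => (rg s)⁻¹ := by funext s; simp [rg]
  rw [h]
  apply DifferentiableAt.inv (rg_diff s)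
  unfold rg
  exact inv_ne_zero (Gammaℝ_ne_zero_of_re_pos hs)

lemma q2_diff (c : ℂ) {lam : Fin r → ℝ} {mu : Fin r → ℂ} (hl : ∀ j, 0 < lam j) (hm : ∀ j, 0 ≤ (mu j).re) (m : ℕ) {s : ℂ}
    (hs : 0 < s.re) (hs1 : s.re < 1) : DifferentiableAt ℂ (q2 c lam mu m) s := by
  unfold q2
  apply DifferentiableAt.mul (GG_diff c hl hm hs)
  apply DifferentiableAt.pow
  apply DifferentiableAt.mul (rg_diff s)
  have h1 : DifferentiableAt ℂ Gammaℝ (1 - s) := gR_diff (by simp; linarith)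
  exact DifferentiableAt.comp s h1 (by fun_prop)

lemma GG_rel {c : ℂ} (hc : c ≠ 0) {lam : Fin r → ℝ} {mu : Fin r → ℂ} (hl : ∀ j, 0 < lam j) (hm : ∀ j, 0 ≤ (mu j).re)
    {α : ℝ} (hα : 0 < α) (t : ℝ) :
    gm c lam mu (ln (1 / 2 - α) t) = GG c lam mu (ln (1 / 2 - α) t) * conj (gm c lam mu (ln (1 / 2 + α) t)) := by
  set s0 := ln (1 / 2 - α) t with hs0
  have hcs : conj c ≠ 0 := by simpa using hc
  have e1 : 1 - conj s0 = ln (1 / 2 + α) t := by
    rw [hs0]
    simp only [ln, map_add, map_mul, Complex.conj_ofReal, Complex.conj_I]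
    push_cast
    ring
  have e2 : conj (gm c lam mu (ln (1 / 2 + α) t)) * gr lam mu s0 = conj c := by
    unfold gm gr
    rw [map_mul, map_prod, mul_assoc, ← Finset.prod_mul_distrib, Finset.prod_eq_one, mul_one]
    intro j _
    rw [refl_arg, e1, Complex.Gamma_conj]
    apply mul_inv_cancel₀
    rw [Ne, map_eq_zero]
    apply Complex.Gamma_ne_zero_of_re_pos
    rw [re_aff, ln_re]
    have := mul_pos (hl j) (by linarith : 0 < 1 / 2 + α)
    linarith [hm j]
  have e3 : GG c lam mu s0 * conj (gm c lam mu (ln (1 / 2 + α) t)) =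
      (c / conj c) * (∏ j, Complex.Gamma ((lam j : ℂ) * s0 + mu j)) *
      (conj (gm c lam mu (ln (1 / 2 + α) t)) * gr lam mu s0) := by
    unfold GG; ring
  rw [e3, e2]
  unfold gm
  generalize (∏ j, Complex.Gamma ((lam j : ℂ) * s0 + mu j)) = W
  field_simp

/-- the ratio of the kernels on the two lines -/
theorem g2_Rho {c : ℂ} (hc : c ≠ 0) {lam : Fin r → ℝ} {mu : Fin r → ℂ} (hl : ∀ j, 0 < lam j)
    (hm : ∀ j, 0 ≤ (mu j).re) (m : ℕ) {α : ℝ} (hα : 0 < α) (hα2 : α < 1 / 2)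
    (h1 : 1 < (∑ j, lam j - m / 2) * (2 * α)) : ∃ C : ℝ, 0 ≤ C ∧ Rho (g2 c lam mu m) α C := by
  refine rho_of (fun s h0 h1 => q2_diff c hl hm m h0 h1) (q2_UpB c mu hl m) (fun σ _ _ => q2_Asy hc mu hl m σ)
    hα hα2 h1 fun t => ?_
  unfold g2 q2
  rw [GG_rel hc hl hm hα t, map_mul, map_pow]
  set s0 := ln (1 / 2 - α) t with hs0
  have e1 : 1 - s0 = conj (ln (1 / 2 + α) t) := by
    rw [hs0]
    simp only [ln, map_add, map_mul, Complex.conj_ofReal, Complex.conj_I]
    push_cast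
    ring
  have e2 : conj (rg (ln (1 / 2 + α) t)) * Gammaℝ (1 - s0) = 1 := by
    unfold rg
    rw [e1, gR_conj, map_inv₀]
    apply inv_mul_cancel₀
    rw [Ne, map_eq_zero]
    exact Gammaℝ_ne_zero_of_re_pos (by simp; linarith)
  have e3 : (rg s0 * Gammaℝ (1 - s0)) ^ m * conj (rg (ln (1 / 2 + α) t)) ^ m = rg s0 ^ m := by
    rw [← mul_pow, mul_assoc, mul_comm (Gammaℝ (1 - s0)), e2, mul_one]
  rw [← e3]
  ring

lemma g2_UpB (c : ℂ) {lam : Fin r → ℝ} (mu : Fin r → ℂ) (hl : ∀ j, 0 < lam j) (m : ℕ) :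
    UpB (g2 c lam mu m) (∑ j, lam j - m / 2) := by
  have h := (gm_UpB c mu hl).mul (UpB_pow rg_UpB m)
  have e : ∑ j, lam j + m * (-(1 / 2)) = ∑ j, lam j - m / 2 := by ring
  rw [e] at h
  exact h

lemma g2_diff (c : ℂ) {lam : Fin r → ℝ} {mu : Fin r → ℂ} (hl : ∀ j, 0 < lam j) (hm : ∀ j, 0 ≤ (mu j).re) (m : ℕ) {s : ℂ}
    (hs : 0 < s.re) : DifferentiableAt ℂ (g2 c lam mu m) s :=
  (gm_diff c hl hm hs).mul ((rg_diff s).pow m)

lemma rg_ne {s : ℂ} (hs : 0 < s.re) : rg s ≠ 0 := inv_ne_zero (Gammaℝ_ne_zero_of_re_pos hs)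

lemma g2_ne {c : ℂ} (hc : c ≠ 0) {lam : Fin r → ℝ} {mu : Fin r → ℂ} (hl : ∀ j, 0 < lam j) (hm : ∀ j, 0 ≤ (mu j).re)
    (m : ℕ) {s : ℂ} (hs : 0 < s.re) : g2 c lam mu m s ≠ 0 :=
  mul_ne_zero (gm_ne hc hl hm hs) (pow_ne_zero _ (rg_ne hs))

/-- exponential decay from `UpB` -/
lemma decay_of_UpB {f : ℂ → ℂ} {κ : ℝ} (hU : UpB f κ) (hκ : 0 < κ)
    (hd : ∀ s : ℂ, 0 < s.re → DifferentiableAt ℂ f s) : ∀ a b : ℝ, 0 < a → a ≤ b → ∃ C δ : ℝ, 0 < δ ∧
    ∀ s : ℂ, a ≤ s.re → s.re ≤ b → ‖f s‖ ≤ C * Real.exp (-δ * |s.im|) := by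
  intro a b ha hab
  obtain ⟨C, M, T, hC, hM, h⟩ := hU a b hab
  obtain ⟨C', δ, hδ, hC', h'⟩ := st_decay hM hκ
  set T0 := max T 0 with hT0
  have hK : IsCompact (Icc a b ×ℂ Icc (-T0) T0) := isCompact_Icc.reProdIm isCompact_Icc
  have hcont : ContinuousOn f (Icc a b ×ℂ Icc (-T0) T0) := by
    intro s hs
    rw [mem_reProdIm] at hs
    exact (hd s (by linarith [hs.1.1])).continuousAt.continuousWithinAt
  obtain ⟨B, hB⟩ := hK.exists_bound_of_continuousOn hcont
  refine ⟨C * C' + |B| * Real.exp (δ * T0), δ, hδ, fun s h1 h2 => ?_⟩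
  rcases le_total T0 |s.im| with ht | ht
  · calc _ ≤ C * st M κ s.im := h s h1 h2 ((le_max_left _ _).trans ht)
      _ ≤ C * (C' * Real.exp (-δ * |s.im|)) := by gcongr; exact h' _
      _ = C * C' * Real.exp (-δ * |s.im|) := by ring
      _ ≤ _ := by
        apply mul_le_mul_of_nonneg_right _ (Real.exp_pos _).le
        have : 0 ≤ |B| * Real.exp (δ * T0) := by positivity
        linarith
  · have hs : s ∈ Icc a b ×ℂ Icc (-T0) T0 := by
      rw [mem_reProdIm]; exact ⟨⟨h1, h2⟩, abs_le.1 ht⟩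
    have k1 : 1 ≤ Real.exp (δ * T0) * Real.exp (-δ * |s.im|) := by
      rw [← Real.exp_add]
      apply Real.one_le_exp
      nlinarith
    calc _ ≤ B := hB s hs
      _ ≤ |B| := le_abs_self _
      _ ≤ |B| * (Real.exp (δ * T0) * Real.exp (-δ * |s.im|)) := le_mul_of_one_le_right (abs_nonneg _) k1
      _ = |B| * Real.exp (δ * T0) * Real.exp (-δ * |s.im|) := by ring
      _ ≤ _ := by
        apply mul_le_mul_of_nonneg_right _ (Real.exp_pos _).le
        have : 0 ≤ C * C' := by positivity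
        linarith

/-- **Admissibility of `g2`.** -/
theorem g2_Adm {c : ℂ} (hc : c ≠ 0) {lam : Fin r → ℝ} {mu : Fin r → ℂ} (hl : ∀ j, 0 < lam j)
    (hm : ∀ j, 0 ≤ (mu j).re) (m : ℕ) {α : ℝ} (hα : 0 < α) (hα2 : α < 1 / 2)
    (h1 : 1 < (∑ j, lam j - m / 2) * (2 * α)) : Adm (g2 c lam mu m) α := by
  have hS : 0 < ∑ j, lam j - (m : ℝ) / 2 := by
    by_contra hcon
    push Not at hcon
    nlinarith
  refine ⟨fun s hs => g2_diff c hl hm m hs, decay_of_UpB (g2_UpB c mu hl m) hS (fun s hs => g2_diff c hl hm m hs),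
    hα, hα2, ?_⟩
  have hA := (gm_Asy hc mu hl (1 / 2 - α)).mul (Asy_pow (rg_Asy (1 / 2 - α)) m)
  have hB := (gm_Asy hc mu hl (1 / 2 + α)).mul (Asy_pow (rg_Asy (1 / 2 + α)) m)
  have e1 : ∑ j, (lam j * (1 / 2 + α) + (mu j).re - 1 / 2) =
      ∑ j, (lam j * (1 / 2 - α) + (mu j).re - 1 / 2) + (∑ j, lam j) * (2 * α) := by
    rw [Finset.sum_mul, ← Finset.sum_add_distrib]
    apply Finset.sum_congr rfl
    intro j _
    ring
  exact ratio_of_Asy hA hB (by rw [e1]; nlinarith)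
    (line_cont fun s hs => g2_diff c hl hm m (by linarith)) (line_cont fun s hs => g2_diff c hl hm m (by linarith))
    (fun t => g2_ne hc hl hm m (by simp; linarith))

end Pool.Agent.H483.ZP
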