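import Pool.Agent.H483.ZP.Xi
import Pool.Agent.H483.SA.Elem

set_option autoImplicit false

/-!
# The test functions with a pole, and the vanishing of the completed function
-/

namespace Pool.Agent.H483.ZP

open MeasureTheory Set Filter Topology Complex FourierTransform
open Pool.Agent.H336R4.PF Pool.Agent.H483.FE Pool.Agent.H483.SA
open scoped ComplexConjugate

/-- the Gaussian factor -/
noncomputable def ga (s : ℂ) : ℂ := cexp ((s - 1 / 2) ^ 2)

/-- division by `s - ρ` and `s - (1 - ρ̄)` -/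
noncomputable def kk (f : ℂ → ℂ) (ρ s : ℂ) : ℂ := ga s * (dslope f ρ s + dslope f (1 - conj ρ) s)

lemma ga_diff : Differentiable ℂ ga := by unfold ga; fun_prop

lemma dsl_diff {f : ℂ → ℂ} (hf : Differentiable ℂ f) (ρ : ℂ) : Differentiable ℂ (dslope f ρ) := by
  rw [← differentiableOn_univ, Complex.differentiableOn_dslope Filter.univ_mem]
  exact hf.differentiableOn

lemma kk_diff {f : ℂ → ℂ} (hf : Differentiable ℂ f) (ρ : ℂ) : Differentiable ℂ (kk f ρ) :=
  ga_diff.mul ((dsl_diff hf ρ).add (dsl_diff hf _))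

lemma ga_sym (s : ℂ) : ga (1 - conj s) = conj (ga s) := by
  unfold ga
  rw [← Complex.exp_conj]
  congr 1
  simp only [map_pow, map_sub, map_div₀, map_one, map_ofNat]
  ring

lemma dsl_of {f : ℂ → ℂ} {ρ s : ℂ} (h : s ≠ ρ) (h0 : f ρ = 0) : dslope f ρ s = f s / (s - ρ) := by
  rw [dslope_of_ne _ h, slope_def_field, h0, sub_zero]

lemma cc_eq (s : ℂ) : 1 - conj (1 - conj s) = s := by simp

lemma dsl_sym {f : ℂ → ℂ} (hf : Differentiable ℂ f) (hs : ∀ s, f (1 - conj s) = conj (f s)) {ρ : ℂ} (h0 : f ρ = 0)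
    (s : ℂ) : dslope f ρ (1 - conj s) = -conj (dslope f (1 - conj ρ) s) := by
  have h1 : f (1 - conj ρ) = 0 := by rw [hs, h0, map_zero]
  have hc1 : Continuous fun s => dslope f ρ (1 - conj s) :=
    (dsl_diff hf ρ).continuous.comp (continuous_const.sub Complex.continuous_conj)
  have hc2 : Continuous fun s => -conj (dslope f (1 - conj ρ) s) :=
    (Complex.continuous_conj.comp (dsl_diff hf _).continuous).neg
  have hd : Dense ({1 - conj ρ}ᶜ : Set ℂ) := dense_compl_singleton _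
  refine congrFun (Continuous.ext_on hd hc1 hc2 ?_) s
  intro s hs1
  have hs1 : s ≠ 1 - conj ρ := hs1
  have hs2 : 1 - conj s ≠ ρ := by
    intro h
    apply hs1
    rw [← h, cc_eq]
  beta_reduce
  rw [dsl_of hs2 h0, dsl_of hs1 h1, hs, map_div₀]
  have e : conj (s - (1 - conj ρ)) = -(1 - conj s - ρ) := by
    simp only [map_sub, map_one, Complex.conj_conj]
    ring
  rw [e, div_neg, neg_neg]

lemma kk_sym {f : ℂ → ℂ} (hf : Differentiable ℂ f) (hs : ∀ s, f (1 - conj s) = conj (f s)) {ρ : ℂ} (h0 : f ρ = 0)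
    (s : ℂ) : kk f ρ (1 - conj s) = -conj (kk f ρ s) := by
  have h1 : f (1 - conj ρ) = 0 := by rw [hs, h0, map_zero]
  have a1 := dsl_sym hf hs h0 s
  have a2 := dsl_sym hf hs h1 s
  rw [cc_eq] at a2
  unfold kk
  rw [ga_sym, a1, a2, map_mul, map_add]
  ring

/-- the two poles -/
noncomputable def ee (ρ s : ℂ) : ℂ := ga s * (1 / (s - ρ) + 1 / (s - (1 - conj ρ)))

lemma kk_eq {f : ℂ → ℂ} {ρ s : ℂ} (h0 : f ρ = 0) (h1 : f (1 - conj ρ) = 0) (hs : s ≠ ρ) (hs1 : s ≠ 1 - conj ρ) :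
    kk f ρ s = f s * ee ρ s := by
  unfold kk ee
  rw [dsl_of hs h0, dsl_of hs1 h1]
  ring

lemma dsl_SB {f : ℂ → ℂ} (hf : Differentiable ℂ f) (hb : SB f) (ρ : ℂ) : SB (dslope f ρ) := by
  intro a b
  obtain ⟨C, hC⟩ := hb a b
  obtain ⟨B, hB⟩ := (isCompact_closedBall ρ 1).exists_bound_of_continuousOn (dsl_diff hf ρ).continuous.continuousOn
  refine ⟨|B| + (|C| + ‖f ρ‖), fun s h1 h2 => ?_⟩
  rcases le_total (dist s ρ) 1 with h | h
  · have h3 := hB s (Metric.mem_closedBall.2 h)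
    have h4 := le_abs_self B
    have h5 := abs_nonneg C
    have h6 := norm_nonneg (f ρ)
    linarith
  · have hne : s ≠ ρ := by
      rintro rfl
      rw [dist_self] at h
      linarith
    rw [dslope_of_ne _ hne, slope_def_field, norm_div]
    rw [dist_eq_norm] at h
    have h3 : ‖f s - f ρ‖ / ‖s - ρ‖ ≤ ‖f s - f ρ‖ := div_le_self (norm_nonneg _) h
    have h4 := norm_sub_le (f s) (f ρ)
    have h5 := hC s h1 h2
    have h6 := le_abs_self C
    have h7 := abs_nonneg B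
    linarith

/-- decay of `kk` in strips -/
lemma kk_decay {f : ℂ → ℂ} (hf : Differentiable ℂ f) (hb : SB f) (ρ : ℂ) (a b : ℝ) : ∃ C : ℝ, 0 ≤ C ∧
    ∀ s : ℂ, a ≤ s.re → s.re ≤ b → ‖kk f ρ s‖ ≤ C * Real.exp (-1 * |s.im|) := by
  obtain ⟨C1, h1⟩ := dsl_SB hf hb ρ a b
  obtain ⟨C2, h2⟩ := dsl_SB hf hb (1 - conj ρ) a b
  refine ⟨Real.exp ((|a| + |b| + 1) ^ 2 + 1) * (|C1| + |C2|), by positivity, fun s hs1 hs2 => ?_⟩
  unfold kk ga
  rw [norm_mul, Complex.norm_exp]
  have e : ((s - 1 / 2) ^ 2).re = (s.re - 1 / 2) ^ 2 - s.im ^ 2 := by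
    rw [sq, Complex.mul_re]
    simp
    ring
  rw [e]
  have k1 : (s.re - 1 / 2) ^ 2 ≤ (|a| + |b| + 1) ^ 2 := by
    apply sq_le_sq'
    · have := neg_abs_le a; have := abs_nonneg b; linarith
    · have := le_abs_self b; have := abs_nonneg a; linarith
  have k2 : (s.re - 1 / 2) ^ 2 - s.im ^ 2 ≤ ((|a| + |b| + 1) ^ 2 + 1) + (-1 * |s.im|) := by
    have := sq_abs s.im
    nlinarith [sq_nonneg (|s.im| - 1 / 2)]
  have k3 : ‖dslope f ρ s + dslope f (1 - conj ρ) s‖ ≤ |C1| + |C2| :=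
    (norm_add_le _ _).trans (add_le_add ((h1 s hs1 hs2).trans (le_abs_self _)) ((h2 s hs1 hs2).trans (le_abs_self _)))
  calc _ ≤ Real.exp (((|a| + |b| + 1) ^ 2 + 1) + (-1 * |s.im|)) * (|C1| + |C2|) := by gcongr
    _ = _ := by rw [Real.exp_add]; ring

/-- the integral over the critical line is purely imaginary, and so are all the others -/
lemma kk_int {f : ℂ → ℂ} (hf : Differentiable ℂ f) (hb : SB f) (hs : ∀ s, f (1 - conj s) = conj (f s)) {ρ : ℂ}
    (h0 : f ρ = 0) {σ : ℝ} (hσ : 1 / 2 ≤ σ) : (∫ t : ℝ, kk f ρ (ln σ t)).re = 0 := by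
  obtain ⟨C, hC, h⟩ := kk_decay hf hb ρ (1 / 2) σ
  have hsh := vshift (g := kk f ρ) (a := 1 / 2) (b := σ) one_pos hσ (fun z _ _ => kk_diff hf ρ z) h
  have hsc : ∀ τ : ℝ, ∫ t : ℝ, kk f ρ (ln τ t) = |(2 * Real.pi)⁻¹| • ∫ t : ℝ, kk f ρ (τ + t * I) := by
    intro τ
    rw [← MeasureTheory.Measure.integral_comp_mul_left (fun t : ℝ => kk f ρ (τ + t * I))]
    rfl
  have h1 : (∫ t : ℝ, kk f ρ (ln (1 / 2) t)).re = 0 := by
    have h2 : ∀ t : ℝ, conj (kk f ρ (ln (1 / 2) t)) = -kk f ρ (ln (1 / 2) t) := by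
      intro t
      have h3 := kk_sym hf hs h0 (ln (1 / 2) t)
      have e : 1 - conj (ln (1 / 2) t) = ln (1 / 2) t := by
        unfold ln
        simp only [map_add, map_mul, Complex.conj_ofReal, Complex.conj_I]
        push_cast
        ring
      rw [e] at h3
      exact (neg_eq_iff_eq_neg.2 h3).symm
    have h3 : conj (∫ t : ℝ, kk f ρ (ln (1 / 2) t)) = -∫ t : ℝ, kk f ρ (ln (1 / 2) t) := by
      rw [← integral_conj, ← integral_neg]
      congr 1
      funext t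
      exact h2 t
    have h4 := congrArg Complex.re h3
    rw [Complex.conj_re, Complex.neg_re] at h4
    linarith
  rw [hsc] at h1 ⊢
  rw [← hsh]
  exact h1

/-- **Lemma N.** If the completed function vanishes at `ρ` then the relation holds for the test function
with the pole at `ρ`. -/
theorem lemN {γ X Λ : ℂ → ℂ} {α Q : ℝ} (A : Adm γ α) (hQ : 0 < Q) {a : ℕ → ℂ} (h0 : a 0 = 0)
    (ha : Summable fun n : ℕ => ‖a n‖ ^ 2 * (n : ℝ) ^ (-(2 * α)))
    (hX : Differentiable ℂ X) (hXs : ∀ s, X (1 - conj s) = conj (X s)) (hXb : SB X)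
    (hΛ : Differentiable ℂ Λ) (hΛs : ∀ s, Λ (1 - conj s) = conj (Λ s)) (hΛb : SB Λ)
    (he : ∀ s : ℂ, 1 / 2 + α < s.re → Λ s = (Q : ℂ) ^ s * (γ s * X s) * LSeries a s)
    {ρ : ℂ} (hρ1 : ρ.re < 2) (hρ2 : -1 < ρ.re) (hXρ : X ρ = 0) (hΛρ : Λ ρ = 0) {g : ℝ → ℂ}
    (hg : ∀ σ : ℝ, 0 < σ → ∀ y : ℝ, g y = cexp (-(σ * y : ℝ)) * 𝓕 (fun t : ℝ => γ (ln σ t) * kk X ρ (ln σ t)) y) :
    HasSum (fun n : ℕ => (a n * g (zz Q n)).re) 0 := by
  have hα := A.pos
  have hα2 := A.lt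
  have hQ' : (Q : ℂ) ≠ 0 := by exact_mod_cast hQ.ne'
  have hpb : ∀ σ : ℝ, ∃ B : ℝ, ∀ t : ℝ, ‖kk X ρ (ln σ t)‖ ≤ B := by
    intro σ
    obtain ⟨C, hC, h⟩ := kk_decay hX hXb ρ σ σ
    refine ⟨C, fun t => (h _ (by simp) (by simp)).trans ?_⟩
    apply mul_le_of_le_one_right hC
    rw [Real.exp_le_one_iff]
    have := abs_nonneg (ln σ t).im
    linarith
  have hED := GG_ED A (kk_diff hX ρ).continuous hpb (σ := 2) (by norm_num)
  set G : ℝ → ℂ := fun t : ℝ => γ (ln 2 t) * kk X ρ (ln 2 t) with hG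
  set F : ℕ → ℝ → ℂ := fun n t => a n * (cexp (-(ln 2 t) * zz Q n) * G t) with hF
  have hcont : ∀ n : ℕ, Continuous fun t : ℝ => cexp (-(ln 2 t) * zz Q n) := by
    intro n
    have := ln_cont 2
    fun_prop
  have hnorm : ∀ (n : ℕ) (t : ℝ), ‖cexp (-(ln 2 t) * zz Q n)‖ = Real.exp (-(2 * zz Q n)) := by
    intro n t
    rw [Complex.norm_exp]
    congr 1
    simp
  have hFi : ∀ n, Integrable (F n) := by
    intro n
    apply Integrable.const_mul
    refine (hED.int.norm.const_mul (Real.exp (-(2 * zz Q n)))).mono' ?_ (Eventually.of_forall fun t => ?_)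
    · exact ((hcont n).mul hED.1).aestronglyMeasurable
    · rw [norm_mul, hnorm]
  have hFn : ∀ n, ∫ t, ‖F n t‖ = ‖a n‖ * Real.exp (-(2 * zz Q n)) * ∫ t, ‖G t‖ := by
    intro n
    rw [← integral_const_mul]
    congr 1
    funext t
    simp only [hF]
    rw [norm_mul, norm_mul, hnorm]
    ring
  have hFe : ∀ n, ∫ t, F n t = a n * g (zz Q n) := by
    intro n
    rw [hg 2 (by norm_num) (zz Q n), Real.fourier_real_eq_integral_exp_smul, ← integral_const_mul,
      ← integral_const_mul]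
    congr 1
    funext t
    simp only [hF, hG, smul_eq_mul]
    congr 1
    have e : cexp (-(ln 2 t) * zz Q n) = cexp (-((2 * zz Q n : ℝ) : ℂ)) *
        cexp (((-2 * Real.pi * t * zz Q n : ℝ) : ℂ) * I) := by
      rw [← Complex.exp_add]
      congr 1
      unfold ln
      push_cast
      ring
    rw [e]
    ring
  have hzz : ∀ n : ℕ, 1 ≤ n → Real.exp (-(2 * zz Q n)) = Q ^ (2:ℝ) * (n : ℝ) ^ (-(2:ℝ)) := by
    intro n hn
    have hn0 : (0:ℝ) < n := by exact_mod_cast hn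
    unfold zz
    rw [Real.rpow_def_of_pos hn0, Real.rpow_def_of_pos hQ, ← Real.exp_add]
    congr 1
    ring
  have hsum : Summable fun n => ∫ t, ‖F n t‖ := by
    have h1 := (abs_sum ha hα (σ := 2) (by linarith)).mul_left (Q ^ (2:ℝ) * ∫ t, ‖G t‖)
    refine h1.congr fun n => ?_
    rw [hFn]
    rcases Nat.eq_zero_or_pos n with rfl | hn
    · simp [h0]
    · rw [hzz n hn]; ring
  have H := hasSum_integral_of_summable_integral_norm hFi hsum
  simp_rw [hFe] at H
  have e1 : ∀ t : ℝ, ∑' n, F n t = kk Λ ρ (ln 2 t) := by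
    intro t
    set s := ln 2 t with hs
    have hsre : s.re = 2 := by rw [hs, ln_re]
    have hne1 : s ≠ ρ := by rintro h; rw [h] at hsre; linarith
    have hne2 : s ≠ 1 - conj ρ := by
      rintro h
      rw [h] at hsre
      simp at hsre
      linarith
    have hX1 : X (1 - conj ρ) = 0 := by rw [hXs, hXρ, map_zero]
    have hL1 : Λ (1 - conj ρ) = 0 := by rw [hΛs, hΛρ, map_zero]
    rw [kk_eq hΛρ hL1 hne1 hne2, he s (by rw [hsre]; linarith)]
    have e2 : G t = γ s * X s * ee ρ s := by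
      simp only [hG]
      rw [← hs, kk_eq hXρ hX1 hne1 hne2]
      ring
    have e3 : ∀ n : ℕ, F n t = LSeries.term a s n * ((Q : ℂ) ^ s * (γ s * X s) * ee ρ s) := by
      intro n
      rcases Nat.eq_zero_or_pos n with rfl | hn
      · simp [hF, h0]
      · have hn0 : (n:ℂ) ≠ 0 := by exact_mod_cast (by omega : n ≠ 0)
        simp only [hF]
        rw [LSeries.term_of_ne_zero hn.ne', e2, ← hs]
        have e4 : cexp (-s * zz Q n) = (Q : ℂ) ^ s * ((n : ℂ) ^ s)⁻¹ := by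
          rw [← Complex.cpow_neg, Complex.cpow_def_of_ne_zero hn0, Complex.cpow_def_of_ne_zero hQ', ← Complex.exp_add]
          congr 1
          rw [show Complex.log (n:ℂ) = ((Real.log n : ℝ) : ℂ) from by
            rw [Complex.ofReal_log (Nat.cast_nonneg n)]; simp, ← Complex.ofReal_log hQ.le]
          unfold zz
          push_cast
          ring
        rw [e4, div_eq_mul_inv]
        ring
    simp_rw [e3]
    rw [tsum_mul_right]
    unfold LSeries
    ring
  simp_rw [e1] at H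
  have h2 := Complex.hasSum_re H
  rw [kk_int hΛ hΛb hΛs hΛρ (σ := 2) (by norm_num)] at h2
  exact h2

end Pool.Agent.H483.ZP
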