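import Pool.Agent.H483.SA.Fix2
import Pool.Agent.H483.ZP.Ker

set_option autoImplicit false

/-!
# The relations with a source
-/

namespace Pool.Agent.H483.ZP

open Filter Topology Set Complex
open Pool.Agent.H483.FE Pool.Agent.H483.SA
open scoped ComplexConjugate

/-- **The relations with a source.** -/
theorem relations2 {α y0 K : ℝ} (hα : 0 < α) (hα4 : α ≤ 1 / 4) (hK : 0 < K) :
    ∃ Q₁ : ℝ, 1 ≤ Q₁ ∧ ∀ Q : ℝ, Q₁ ≤ Q → ∀ γ : ℂ → ℂ, ∀ A : Adm γ α, ∀ hQ0 : 0 < Q, ∀ D : Dt γ α y0 K Q,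
      ∃ R : ℝ, 0 < R ∧ ∀ v : L2, ‖v‖ ≤ R → ∃ a : ℕ → ℂ,
      (∀ p, ¬ p.Prime → a p = 0) ∧
      (∀ p, ‖a p‖ ≤ 1) ∧ (∃ C : ℝ, ∀ p : ℕ, ‖a p‖ ^ 2 ≤ C * (p : ℝ) ^ (4 * α - 1)) ∧
      (Summable fun n : ℕ => ‖cf a n‖ ^ 2 * (n : ℝ) ^ (-(2 * α))) ∧
      ∀ h, ∀ hg : Good γ h, HasSum (fun n : ℕ => (cf a n * h (zz Q n)).re) (inner ℝ v (TS A hQ0 D ⟨h, hg⟩)) := by
  have hα2 : α < 1 / 2 := by linarith
  set W := Real.exp ((4 * α - 1) * y0) with hW
  have ev1 := ev_small 3 (32 * 32 * K) (c := 4 * α) (ε := 1) (by positivity) one_pos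
  have ev2 := ev_small 2 (1920 * 32 * K) (c := 4 * α) (ε := 1) (by positivity) one_pos
  have ev3 := ev_small 6 (3 * K * 32 * K) (c := 4 * α) (ε := 1 / 4) (by positivity) (by norm_num)
  have ev4 := ev_small 4 (32 * K ^ 2 * W) (c := 1 + 2 * α) (ε := 1) (by positivity) one_pos
  have ev5 : ∀ᶠ Q : ℝ in atTop, -Real.log Q ≤ y0 :=
    (tendsto_neg_atTop_atBot.comp Real.tendsto_log_atTop).eventually_le_atBot y0
  obtain ⟨Q₁, hQ₁⟩ := eventually_atTop.1 (ev1.and (ev2.and (ev3.and (ev4.and (ev5.and (eventually_ge_atTop 1))))))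
  refine ⟨max Q₁ 1, le_max_right _ _, fun Q hQ γ A hQ0 D => ?_⟩
  obtain ⟨c1, c2, c3, c4, c5, hQ1⟩ := hQ₁ Q ((le_max_left _ _).trans hQ)
  set L := Real.log Q with hL
  have hL0 : 0 ≤ L := Real.log_nonneg hQ1
  have hΛ : 1 + L ^ 2 ≤ (1 + L) ^ 2 := by nlinarith
  have hΛ0 : 0 < 1 + L ^ 2 := by positivity
  set R := Real.sqrt (16 * (1 + L ^ 2) * K * Q ^ (1 - 2 * α)) with hRdef
  have hq1 : 0 < Q ^ (1 - 2 * α) := Real.rpow_pos_of_pos hQ0 _
  have hR0 : 0 < R := Real.sqrt_pos.2 (by positivity)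
  have hR2 : R ^ 2 = 16 * (1 + L ^ 2) * K * Q ^ (1 - 2 * α) := Real.sq_sqrt (by positivity)
  have hη : 2 * R ^ 2 * Q ^ (-(1 + 2 * α)) = 32 * K * (1 + L ^ 2) * Q ^ (-(4 * α)) := by
    rw [hR2]
    have : Q ^ (-(4 * α)) = Q ^ (1 - 2 * α) * Q ^ (-(1 + 2 * α)) := by
      rw [← Real.rpow_add hQ0]; congr 1; ring
    rw [this]; ring
  have hq4 : 0 < Q ^ (-(4 * α)) := Real.rpow_pos_of_pos hQ0 _
  have d1 : 32 * (2 * R ^ 2 * Q ^ (-(1 + 2 * α))) * (1 + L) ≤ 1 := by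
    rw [hη]
    calc _ = 32 * 32 * K * ((1 + L ^ 2) * (1 + L)) * Q ^ (-(4 * α)) := by ring
      _ ≤ 32 * 32 * K * ((1 + L) ^ 2 * (1 + L)) * Q ^ (-(4 * α)) := by gcongr
      _ = 32 * 32 * K * (1 + L) ^ 3 * Q ^ (-(4 * α)) := by ring
      _ ≤ 1 := c1
  have d2 : 1920 * (2 * R ^ 2 * Q ^ (-(1 + 2 * α))) ≤ 1 := by
    rw [hη]
    calc _ = 1920 * 32 * K * (1 + L ^ 2) * Q ^ (-(4 * α)) := by ring
      _ ≤ 1920 * 32 * K * (1 + L) ^ 2 * Q ^ (-(4 * α)) := by gcongr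
      _ ≤ 1 := c2
  have d3 : 3 * (K * ((2 * R ^ 2 * Q ^ (-(1 + 2 * α))) * (1 + L ^ 2) ^ 2)) ≤ 1 / 4 := by
    rw [hη]
    calc _ = 3 * K * 32 * K * (1 + L ^ 2) ^ 3 * Q ^ (-(4 * α)) := by ring
      _ ≤ 3 * K * 32 * K * ((1 + L) ^ 2) ^ 3 * Q ^ (-(4 * α)) := by gcongr
      _ = 3 * K * 32 * K * (1 + L) ^ 6 * Q ^ (-(4 * α)) := by ring
      _ ≤ 1 / 4 := c3
  set T := TS A hQ0 D with hT
  have hTn : ∀ h : GS A, ‖T h‖ = Real.sqrt (SS α y0 Q (h : ℝ → ℂ)) := by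
    intro h
    rw [← TS_norm A hQ0 D h, Real.sqrt_sq (norm_nonneg _)]
  -- the source
  have hsrc : ∀ h : GS A, |((h : ℝ → ℂ) (-L)).re| ≤ R / 4 * ‖T h‖ := by
    intro h
    have h1 : ‖(h : ℝ → ℂ) (-L)‖ ^ 2 = (1 + L ^ 2) * ‖dv (h : ℝ → ℂ) (-L)‖ ^ 2 := by
      have e : ‖(((-L : ℝ)) : ℂ) - I‖ ^ 2 = 1 + L ^ 2 := by
        have e : (((-L : ℝ)) : ℂ) - I = ⟨-L, -1⟩ := by apply Complex.ext <;> simp
        rw [← Complex.normSq_eq_norm_sq, e, Complex.normSq_mk]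
        ring
      unfold dv
      rw [norm_div, div_pow, e]
      field_simp
    have h2 := D.left (h : ℝ → ℂ) h.2 (-L) c5
    have h3 : Real.exp (-(2 * (1 / 2 - α)) * -L) = Q ^ (1 - 2 * α) := by
      rw [Real.rpow_def_of_pos hQ0]; congr 1; ring
    rw [h3, ← TS_norm A hQ0 D h] at h2
    have h4 : ‖(h : ℝ → ℂ) (-L)‖ ^ 2 ≤ (R / 4 * ‖T h‖) ^ 2 := by
      rw [h1, mul_pow, div_pow, hR2]
      calc _ ≤ (1 + L ^ 2) * (K * Q ^ (1 - 2 * α) * ‖T h‖ ^ 2) := by gcongr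
        _ = _ := by ring
    exact (Complex.abs_re_le_norm _).trans (abs_le_of_sq_le_sq' h4 (by positivity) |>.2)
  refine ⟨R / 4, by positivity, fun v hv => ?_⟩
  have hvT : ∀ h : GS A, |inner ℝ v (T h)| ≤ R / 4 * ‖T h‖ := fun h =>
    (abs_real_inner_le_norm _ _).trans (by gcongr)
  obtain ⟨b, hb, hbR, hbfix⟩ := fixpt T hR0.le (fun b h => ell A hα hα2 hQ1 y0 b h + inner ℝ v (T h))
    (fun b _ _ => ⟨ell A hα hα2 hQ1 y0 b + ((innerSL ℝ v).toLinearMap.comp T), fun h => rfl⟩) (by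
      intro b hb hbR h
      beta_reduce
      rw [ell_apply]
      have h1 := hsrc h
      have h0 := hvT h
      have h2 := LL_diff (y0 := y0) hα hα2 hQ1 D hK hR0 d1 d2 d3 hbR (b' := 0) (by simpa using hR0.le) h.2
      have h3 : LL α y0 Q ((0 : L2) : ℕ → ℂ) (h : ℝ → ℂ) = 0 := by
        unfold SA.LL
        simp only [ac_zero_seq, zero_mul, tsum_zero]
      rw [h3, sub_zero, sub_zero, ← hTn h] at h2
      have h4 := Complex.abs_re_le_norm (LL α y0 Q b (h : ℝ → ℂ))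
      have h5 : 1 / 2 * ‖b‖ * ‖T h‖ ≤ 1 / 2 * R * ‖T h‖ := by gcongr
      rw [abs_le] at h0 h1 h4 ⊢
      constructor <;> linarith [h1.1, h1.2, h4.1, h4.2, h0.1, h0.2])
    (by
      intro b hb b' hb' hbR hbR' h
      beta_reduce
      rw [ell_apply, ell_apply]
      have h2 := LL_diff (y0 := y0) hα hα2 hQ1 D hK hR0 d1 d2 d3 hbR hbR' h.2
      rw [← hTn h] at h2
      have h4 := Complex.abs_re_le_norm (LL α y0 Q b (h : ℝ → ℂ) - LL α y0 Q b' (h : ℝ → ℂ))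
      rw [Complex.sub_re] at h4
      have e : -((h : ℝ → ℂ) (-Real.log Q)).re - (LL α y0 Q b (h : ℝ → ℂ)).re + inner ℝ v (T h) -
          (-((h : ℝ → ℂ) (-Real.log Q)).re - (LL α y0 Q b' (h : ℝ → ℂ)).re + inner ℝ v (T h)) =
          -((LL α y0 Q b (h : ℝ → ℂ)).re - (LL α y0 Q b' (h : ℝ → ℂ)).re) := by ring
      rw [e, abs_neg]
      exact h4.trans h2)
  -- the coefficients
  have hMpos := fun p => MM_pos Q p
  have hbound : ∀ p : ℕ, ‖ac α y0 Q b p‖ ^ 2 ≤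
      32 * K ^ 2 * (1 + L ^ 2) ^ 2 * Q ^ (-(6 * α)) * (p : ℝ) ^ (4 * α - 1) := by
    intro p
    by_cases hp : Big Q y0 p
    · have hp0 : (0:ℝ) < p := by exact_mod_cast hp.1.pos
      have h1 := clo_pt A hQ0 D hb hp
      have h2 := logsq_le_MM (Q := Q) p
      have h3 : ww α y0 Q p = Real.log p / Q * ((p : ℝ) / Q) ^ (2 * α) := by unfold ww; rw [if_pos hp]
      have h4 : Real.exp (-(zz Q p)) = Q / p := by
        unfold zz
        rw [neg_sub, Real.exp_sub, Real.exp_log hQ0, Real.exp_log hp0]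
      have hbR2 : ‖b‖ ^ 2 ≤ R ^ 2 := by gcongr
      have hw0 := ww_nonneg (α := α) (y0 := y0) hQ0 p
      have hM := hMpos p
      rw [ac_sq hQ0]
      calc ww α y0 Q p / MM Q p * ‖b p‖ ^ 2
          ≤ ww α y0 Q p / MM Q p * (ww α y0 Q p * (K * Real.exp (-(zz Q p)) * ‖b‖ ^ 2)) := by gcongr
        _ ≤ ww α y0 Q p / MM Q p * (ww α y0 Q p * (K * Real.exp (-(zz Q p)) * R ^ 2)) := by gcongr
        _ = K * R ^ 2 * (Real.log p ^ 2 / MM Q p) * ((((p : ℝ) / Q) ^ (2 * α)) ^ 2 * Q⁻¹ * (p : ℝ)⁻¹) := by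
            rw [h4, h3]
            field_simp
        _ ≤ K * R ^ 2 * (2 * (1 + L ^ 2)) * ((((p : ℝ) / Q) ^ (2 * α)) ^ 2 * Q⁻¹ * (p : ℝ)⁻¹) := by
            gcongr
            rw [div_le_iff₀ hM]
            exact h2
        _ = _ := by
            rw [hR2]
            have e1 : (((p : ℝ) / Q) ^ (2 * α)) ^ 2 = (p : ℝ) ^ (4 * α) * Q ^ (-(4 * α)) := by
              rw [← Real.rpow_natCast, ← Real.rpow_mul (by positivity), Real.div_rpow hp0.le hQ0.le,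
                Real.rpow_neg hQ0.le, div_eq_mul_inv]
              congr 2
              · push_cast; ring
              · congr 1; push_cast; ring
            have e2 : (p : ℝ) ^ (4 * α - 1) = (p : ℝ) ^ (4 * α) * (p : ℝ)⁻¹ := by
              rw [Real.rpow_sub hp0, Real.rpow_one, div_eq_mul_inv]
            have e3 : Q ^ (-(6 * α)) = Q ^ (1 - 2 * α) * Q ^ (-(4 * α)) * Q⁻¹ := by
              rw [← Real.rpow_neg_one Q, ← Real.rpow_add hQ0, ← Real.rpow_add hQ0]; congr 1; ring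
            rw [e1, e2, e3]
            ring
    · rw [ac_zero hp]
      simp
      positivity
  refine ⟨ac α y0 Q b, ac_not_prime, ?_, ⟨_, hbound⟩, cf_summable hα hQ1 b, ?_⟩
  · intro p
    by_cases hp : Big Q y0 p
    · have hp0 : (0:ℝ) < p := by exact_mod_cast hp.1.pos
      have h1 := hbound p
      have h2 : (p : ℝ) ^ (4 * α - 1) ≤ Q ^ (4 * α - 1) * W := by
        have e1 : (Q * Real.exp y0) ^ (4 * α - 1) = Q ^ (4 * α - 1) * W := by
          rw [Real.mul_rpow hQ0.le (Real.exp_pos _).le, hW, ← Real.exp_mul]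
          congr 2
          ring
        rw [← e1]
        exact Real.rpow_le_rpow_of_nonpos (by positivity) hp.2.le (by linarith)
      have h3 : ‖ac α y0 Q b p‖ ^ 2 ≤ 1 := by
        calc _ ≤ 32 * K ^ 2 * (1 + L ^ 2) ^ 2 * Q ^ (-(6 * α)) * (p : ℝ) ^ (4 * α - 1) := h1
          _ ≤ 32 * K ^ 2 * ((1 + L) ^ 2) ^ 2 * Q ^ (-(6 * α)) * (Q ^ (4 * α - 1) * W) := by gcongr
          _ = 32 * K ^ 2 * W * (1 + L) ^ 4 * (Q ^ (-(6 * α)) * Q ^ (4 * α - 1)) := by ring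
          _ = 32 * K ^ 2 * W * (1 + L) ^ 4 * Q ^ (-(1 + 2 * α)) := by
              rw [← Real.rpow_add hQ0]; congr 2; ring
          _ ≤ 1 := c4
      nlinarith [norm_nonneg (ac α y0 Q b p)]
    · rw [ac_zero hp]
      simp
  · intro h hg
    have hD := good_dec hg
    have hfix := hbfix ⟨h, hg⟩
    beta_reduce at hfix
    rw [ell_apply] at hfix
    have h1 := lp.hasSum_inner (𝕜 := ℝ) b (T ⟨h, hg⟩)
    rw [hfix] at h1
    have h2 : HasSum (fun n : ℕ => (ac α y0 Q b n * h (zz Q n)).re)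
        (-(h (-Real.log Q)).re - (LL α y0 Q b h).re + inner ℝ v (T ⟨h, hg⟩)) := by
      refine h1.congr_fun ?_
      intro n
      rw [Complex.inner]
      have e : (T ⟨h, hg⟩ : L2) n = ((Real.sqrt (ww α y0 Q n) : ℝ) : ℂ) * dv h (zz Q n) := rfl
      rw [e]
      congr 1
      unfold ac dv
      ring
    have h3 := Complex.hasSum_re (cc_h_summable (y0 := y0) hα hα2 hQ1 b hD).hasSum
    have h4 : HasSum (fun n : ℕ => if n = 1 then (h (zz Q n)).re else 0) ((h (-Real.log Q)).re) := by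
      have := hasSum_ite_eq (α := ℝ) (β := ℕ) 1 ((h (-Real.log Q)).re)
      refine this.congr_fun ?_
      intro n
      split_ifs with hn
      · subst hn; simp [zz]
      · rfl
    have h5 := (h4.add h2).add h3
    have e0 : (h (-Real.log Q)).re + (-(h (-Real.log Q)).re - (LL α y0 Q b h).re + inner ℝ v (T ⟨h, hg⟩)) +
        (∑' n, cc (ac α y0 Q b) n * h (zz Q n)).re = inner ℝ v (T ⟨h, hg⟩) := by
      unfold SA.LL; ring
    rw [e0] at h5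
    refine h5.congr_fun ?_
    intro n
    rw [cf_split (ac_not_prime (α := α) (y0 := y0) (Q := Q) (b := b)) n]
    split_ifs with hn
    · rw [add_mul, add_mul, one_mul, Complex.add_re, Complex.add_re]
    · rw [zero_add, add_mul, Complex.add_re]; simp

end Pool.Agent.H483.ZP
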