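import Pool.Agent.H483.ZP.LemN
import Pool.Agent.H483.ZP.Dat2
import Pool.Agent.H483.ZP.Rel

set_option autoImplicit false

/-!
# Separation of the test functions with a pole
-/

namespace Pool.Agent.H483.ZP

open MeasureTheory Set Filter Topology Complex FourierTransform
open Pool.Agent.H336R4.PF Pool.Agent.H483.FE Pool.Agent.H483.SA
open scoped ComplexConjugate

lemma good_cont {γ : ℂ → ℂ} {α : ℝ} (A : Adm γ α) {h : ℝ → ℂ} (hg : Good γ h) : Continuous h := by
  obtain ⟨p, hpc, hpb, -, hr⟩ := hg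
  have hE := GG_ED A hpc hpb one_pos
  have : Continuous (𝓕 (fun t : ℝ => γ (ln 1 t) * p (ln 1 t))) :=
    VectorFourier.fourierIntegral_continuous Real.continuous_fourierChar continuous_inner hE.int
  have e : h = fun y : ℝ => cexp (-((1:ℝ) * y : ℝ)) * 𝓕 (fun t : ℝ => γ (ln 1 t) * p (ln 1 t)) y :=
    funext (hr 1 one_pos)
  rw [e]
  fun_prop

/-- the bilateral Laplace transform -/
noncomputable def lap (h : ℝ → ℂ) (s : ℂ) : ℂ := ∫ y : ℝ, cexp (s * y) * h y

lemma lap_int {h : ℝ → ℂ} (hc : Continuous h) (hD : Dec h) {s : ℂ} (hs : 0 < s.re) :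
    Integrable (fun y : ℝ => cexp (s * y) * h y) := by
  refine (hD.int hc hs).norm.mono' (by fun_prop) (Eventually.of_forall fun y => le_of_eq ?_)
  rw [norm_mul, norm_mul, norm_cexp_mul, Complex.norm_exp]
  simp

lemma lap_eq {γ : ℂ → ℂ} {α : ℝ} (A : Adm γ α) {h : ℝ → ℂ} {p : ℂ → ℂ} (hpc : Continuous p)
    (hpb : ∀ σ : ℝ, ∃ B : ℝ, ∀ t : ℝ, ‖p (ln σ t)‖ ≤ B) (hc : Continuous h) (hD : Dec h)
    (hr : ∀ σ : ℝ, 0 < σ → ∀ y : ℝ, h y = cexp (-(σ * y : ℝ)) * 𝓕 (fun t : ℝ => γ (ln σ t) * p (ln σ t)) y)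
    {s : ℂ} (hs : 0 < s.re) : lap h s = γ s * p s := by
  have hE := GG_ED A hpc hpb hs
  set G : ℝ → ℂ := fun t : ℝ => γ (ln s.re t) * p (ln s.re t) with hG
  have h1 : 𝓕 G = fun y : ℝ => cexp ((s.re * y : ℝ)) * h y := by
    funext y
    rw [hr _ hs y, ← mul_assoc, ← Complex.exp_add]
    simp [hG]
  have hF : Integrable (𝓕 G) := by rw [h1]; exact hD.int hc hs
  have h2 : ∀ y : ℝ, cexp (s * y) * h y = Real.fourierChar (y * (s.im / (2 * Real.pi))) • 𝓕 G y := by
    intro y
    rw [h1, Circle.smul_def, Real.fourierChar_apply, smul_eq_mul, ← mul_assoc, ← Complex.exp_add]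
    congr 2
    have hpi : (Real.pi : ℂ) ≠ 0 := by exact_mod_cast Real.pi_ne_zero
    conv_lhs => rw [← Complex.re_add_im s]
    push_cast
    field_simp
    ring
  have hln : ln s.re (s.im / (2 * Real.pi)) = s := by
    unfold ln
    have hpi : (Real.pi : ℂ) ≠ 0 := by exact_mod_cast Real.pi_ne_zero
    conv_rhs => rw [← Complex.re_add_im s]
    push_cast
    field_simp
  have h3 : 𝓕⁻ (𝓕 G) (s.im / (2 * Real.pi)) = γ s * p s := by
    rw [hE.1.fourierInv_fourier_eq hE.int hF]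
    simp only [hG]
    rw [hln]
  unfold lap
  simp_rw [h2]
  rw [← h3, Real.fourierInv_eq]
  congr 1
  funext y
  congr 2
  simp [mul_comm]

lemma dec_bound {f : ℝ → ℂ} (h : Dec f) {a b : ℝ} (ha : 0 < a) (hab : a ≤ b) : ∃ C : ℝ, 0 ≤ C ∧ ∀ (x y : ℝ), a ≤ x →
    x ≤ b → Real.exp (x * y) * ‖f y‖ ≤ C * Real.exp (-(a / 2) * |y|) := by
  obtain ⟨C1, h1⟩ := h (b + a / 2) (by linarith)
  obtain ⟨C2, h2⟩ := h (a / 2) (by linarith)
  refine ⟨|C1| + |C2|, by positivity, fun x y hx1 hx2 => ?_⟩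
  rcases le_total 0 y with hy | hy
  · rw [abs_of_nonneg hy]
    calc _ ≤ Real.exp (x * y) * (C1 * Real.exp (-(b + a / 2) * y)) := by gcongr; exact h1 y
      _ = C1 * Real.exp ((x - b - a / 2) * y) := by rw [mul_left_comm, ← Real.exp_add]; congr 2; ring
      _ ≤ _ := by
          apply mul_le_mul
          · linarith [le_abs_self C1, abs_nonneg C2]
          · apply Real.exp_le_exp.2; nlinarith
          · positivity
          · positivity
  · rw [abs_of_nonpos hy]
    calc _ ≤ Real.exp (x * y) * (C2 * Real.exp (-(a / 2) * y)) := by gcongr; exact h2 y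
      _ = C2 * Real.exp ((x - a / 2) * y) := by rw [mul_left_comm, ← Real.exp_add]; congr 2; ring
      _ ≤ _ := by
          apply mul_le_mul
          · linarith [le_abs_self C2, abs_nonneg C1]
          · apply Real.exp_le_exp.2; nlinarith
          · positivity
          · positivity

lemma lap_diff {f : ℝ → ℂ} (h : Dec f) (hc : Continuous f) {s0 : ℂ} (hs0 : 0 < s0.re) :
    DifferentiableAt ℂ (lap f) s0 := by
  set τ := s0.re / 2 with hτ
  have hτ0 : 0 < τ := by positivity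
  obtain ⟨C, hC0, hC⟩ := dec_bound h (a := τ) (b := 3 * τ) hτ0 (by linarith)
  have key := hasDerivAt_integral_of_dominated_loc_of_deriv_le (μ := volume) (𝕜 := ℂ)
    (F := fun (s : ℂ) (y : ℝ) => cexp (s * y) * f y) (F' := fun (s : ℂ) (y : ℝ) => y * cexp (s * y) * f y)
    (x₀ := s0) (s := Metric.ball s0 τ) (bound := fun y => (4 / τ * C) * Real.exp (-(τ / 4) * |y|))
    (Metric.ball_mem_nhds s0 hτ0)
    (Eventually.of_forall fun s => (by fun_prop : Continuous (fun y : ℝ => cexp (s * y) * f y)).aestronglyMeasurable)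
    (lap_int hc h hs0) (by
      exact (by fun_prop : Continuous (fun y : ℝ => y * cexp (s0 * y) * f y)).aestronglyMeasurable)
    (Eventually.of_forall fun y s hs => by
      rw [norm_mul, norm_mul, norm_cexp_mul, Complex.norm_real, Real.norm_eq_abs]
      have hs' : |s.re - s0.re| < τ := by
        have h1 := Complex.abs_re_le_norm (s - s0)
        rw [Complex.sub_re] at h1
        rw [Metric.mem_ball, dist_eq_norm] at hs
        linarith
      rw [abs_lt] at hs'
      have h2 := hC s.re y (by linarith) (by linarith)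
      have h3 : |y| ≤ 4 / τ * Real.exp (τ / 4 * |y|) := by
        have h4 := Real.add_one_le_exp (τ / 4 * |y|)
        rw [div_mul_eq_mul_div, le_div_iff₀ hτ0]
        linarith
      calc _ = |y| * (Real.exp (s.re * y) * ‖f y‖) := by ring
        _ ≤ (4 / τ * Real.exp (τ / 4 * |y|)) * (C * Real.exp (-(τ / 2) * |y|)) := by gcongr
        _ = (4 / τ * C) * (Real.exp (τ / 4 * |y|) * Real.exp (-(τ / 2) * |y|)) := by ring
        _ = _ := by rw [← Real.exp_add]; congr 2; ring)
    ((integrable_exp_abs (δ := τ / 4) (by positivity)).const_mul (4 / τ * C))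
    (Eventually.of_forall fun y s _ => by
      have h1 : HasDerivAt (fun s : ℂ => s * (y:ℂ)) (y:ℂ) s := by simpa using! (hasDerivAt_id s).mul_const (y:ℂ)
      have h2 := (h1.cexp).mul_const (f y)
      refine h2.congr_deriv ?_
      ring)
  exact key.2.differentiableAt

lemma one_le_sub_I (y : ℝ) : 1 ≤ ‖(y : ℂ) - I‖ := by
  have := Complex.abs_im_le_norm ((y : ℂ) - I)
  simpa using this

lemma sub_I_le (y : ℝ) : ‖(y : ℂ) - I‖ ≤ 1 + |y| := by
  refine (norm_sub_le _ _).trans ?_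
  rw [Complex.norm_I, Complex.norm_real, Real.norm_eq_abs]
  linarith

lemma dv_dec {h : ℝ → ℂ} (hD : Dec h) : Dec (dv h) := by
  intro σ hσ
  obtain ⟨C, hC⟩ := hD σ hσ
  refine ⟨C, fun y => le_trans ?_ (hC y)⟩
  unfold dv
  rw [norm_div]
  exact div_le_self (norm_nonneg _) (one_le_sub_I y)

lemma dv_cont {h : ℝ → ℂ} (hc : Continuous h) : Continuous (dv h) := by
  unfold dv
  exact hc.div (by fun_prop) sub_I_ne

lemma norm_h (h : ℝ → ℂ) (y : ℝ) : ‖h y‖ ≤ (1 + |y|) * ‖dv h y‖ := by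
  unfold dv
  rw [norm_div]
  have h1 := one_le_sub_I y
  have h2 := sub_I_le y
  calc ‖h y‖ = ‖(y : ℂ) - I‖ * (‖h y‖ / ‖(y : ℂ) - I‖) := by field_simp
    _ ≤ _ := by gcongr

section

variable {γ X : ℂ → ℂ} {α y0 K Q : ℝ}

lemma SS_nonneg (hQ : 0 < Q) (h : ℝ → ℂ) : 0 ≤ SS α y0 Q h :=
  tsum_nonneg fun n => mul_nonneg (ww_nonneg hQ n) (by positivity)

/-- the Laplace transform in the strip is bounded by the samples -/
theorem lap_bound (A : Adm γ α) (hQ : 0 < Q) (D : Dt γ α y0 K Q) (hE : En2 γ α y0 K Q) (hK : 0 < K) (hy0 : y0 ≤ 0)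
    {σ₁ σ₂ : ℝ} (h1 : 1 / 2 - α < σ₁) (h2 : σ₂ < 1 / 2 + α) : ∃ C : ℝ, 0 ≤ C ∧
    ∀ h, Good γ h → ∀ s : ℂ, σ₁ ≤ s.re → s.re ≤ σ₂ → ‖lap h s‖ ≤ C * (1 + SS α y0 Q h) := by
  have hα := A.pos
  have hα2 := A.lt
  set δ := min (σ₁ - (1 / 2 - α)) ((1 / 2 + α) - σ₂) with hδ
  have hδ0 : 0 < δ := lt_min (by linarith) (by linarith)
  have hδ1 : δ ≤ σ₁ - (1 / 2 - α) := min_le_left _ _
  have hδ2 : δ ≤ (1 / 2 + α) - σ₂ := min_le_right _ _
  obtain ⟨C2, hC2, hp⟩ := polyexp (A := 2) (δ := δ / 2) (by norm_num) (by positivity)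
  have hI : Integrable fun y : ℝ => (1 + |y|) ^ 2 * Real.exp (-δ * |y|) := by
    refine ((integrable_exp_abs (δ := δ / 2) (by positivity)).const_mul C2).mono' (by fun_prop)
      (Eventually.of_forall fun y => ?_)
    have h3 := hp y
    rw [Real.rpow_two] at h3
    rw [Real.norm_eq_abs, abs_of_nonneg (by positivity)]
    have e : -(2 * (δ / 2)) * |y| = -δ * |y| := by ring
    rw [e] at h3
    exact h3
  set I2 := ∫ y : ℝ, (1 + |y|) ^ 2 * Real.exp (-δ * |y|) with hI2
  have hI20 : 0 ≤ I2 := integral_nonneg fun y => by positivity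
  set W := Real.exp (3 * |y0|) with hW
  have hW1 : 1 ≤ W := Real.one_le_exp (by positivity)
  refine ⟨W * (I2 * (1 + K) + K), by positivity, fun h hg s hs1 hs2 => ?_⟩
  have hD := good_dec hg
  have hc := good_cont A hg
  have hS0 : 0 ≤ SS α y0 Q h := SS_nonneg hQ h
  set S := SS α y0 Q h with hS
  have hδ3 : δ ≤ (1 / 2 + α) - s.re := by linarith
  have hδ4 : δ ≤ s.re - (1 / 2 - α) := by linarith
  have hi2 : Integrable fun y : ℝ => Real.exp (2 * (1 / 2 + α) * y) * ‖dv h y‖ ^ 2 :=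
    (dv_dec hD).int_sq (dv_cont hc) (σ := 1 / 2 + α) (by linarith)
  have hpt : ∀ y : ℝ, ‖cexp (s * y) * h y‖ ≤ W * (1 + K * S) * ((1 + |y|) ^ 2 * Real.exp (-δ * |y|)) +
      W * (Real.exp (2 * (1 / 2 + α) * y) * ‖dv h y‖ ^ 2) := by
    intro y
    have hn := norm_h h y
    have ha := abs_nonneg y
    rw [norm_mul, norm_cexp_mul]
    rcases le_total y y0 with hy | hy
    · have h3 := D.left h hg y hy
      rw [← hS] at h3
      have hyn : |y| = -y := abs_of_nonpos (by linarith)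
      have h4 : ‖dv h y‖ ≤ Real.exp (-(1 / 2 - α) * y) * (1 + K * S) := by
        apply abs_le_of_sq_le_sq' _ (by positivity) |>.2
        refine h3.trans ?_
        have e1 : Real.exp (-(2 * (1 / 2 - α)) * y) = Real.exp (-(1 / 2 - α) * y) ^ 2 := by
          rw [← Real.exp_nat_mul]; congr 1; push_cast; ring
        rw [e1]
        have h5 : K * S ≤ (1 + K * S) ^ 2 := by nlinarith [mul_nonneg hK.le hS0]
        calc _ = Real.exp (-(1 / 2 - α) * y) ^ 2 * (K * S) := by ring
          _ ≤ Real.exp (-(1 / 2 - α) * y) ^ 2 * (1 + K * S) ^ 2 := by gcongr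
          _ = _ := by ring
      have h5 : Real.exp (s.re * y) * Real.exp (-(1 / 2 - α) * y) ≤ Real.exp (-δ * |y|) := by
        rw [← Real.exp_add]
        apply Real.exp_le_exp.2
        rw [hyn]
        nlinarith
      have h6 : 0 ≤ 1 + K * S := by positivity
      calc _ ≤ Real.exp (s.re * y) * ((1 + |y|) * (Real.exp (-(1 / 2 - α) * y) * (1 + K * S))) := by
            gcongr
            exact hn.trans (by gcongr)
        _ = 1 * (1 + K * S) * ((1 + |y|) * (Real.exp (s.re * y) * Real.exp (-(1 / 2 - α) * y))) := by ring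
        _ ≤ W * (1 + K * S) * ((1 + |y|) ^ 2 * Real.exp (-δ * |y|)) := by
            gcongr
            nlinarith
        _ ≤ _ := by
            have : 0 ≤ W * (Real.exp (2 * (1 / 2 + α) * y) * ‖dv h y‖ ^ 2) := by positivity
            linarith
    · have h3 : Real.exp (2 * (s.re - (1 / 2 + α)) * y) ≤ W * Real.exp (-δ * |y|) := by
        rw [hW, ← Real.exp_add]
        apply Real.exp_le_exp.2
        rcases le_total 0 y with h4 | h4
        · rw [abs_of_nonneg h4]
          have := abs_nonneg y0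
          nlinarith
        · rw [abs_of_nonpos h4, abs_of_nonpos hy0]
          have h5 : (1 / 2 + α) - s.re ≤ 1 := by linarith
          nlinarith
      have h4 : Real.exp (s.re * y) * ((1 + |y|) * ‖dv h y‖) =
          ((1 + |y|) * Real.exp ((s.re - (1 / 2 + α)) * y)) * (Real.exp ((1 / 2 + α) * y) * ‖dv h y‖) := by
        have : Real.exp (s.re * y) = Real.exp ((s.re - (1 / 2 + α)) * y) * Real.exp ((1 / 2 + α) * y) := by
          rw [← Real.exp_add]; congr 1; ring
        rw [this]; ring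
      have h5 : Real.exp (2 * (s.re - (1 / 2 + α)) * y) = Real.exp ((s.re - (1 / 2 + α)) * y) ^ 2 := by
        rw [← Real.exp_nat_mul]; congr 1; push_cast; ring
      have h6 : Real.exp (2 * (1 / 2 + α) * y) = Real.exp ((1 / 2 + α) * y) ^ 2 := by
        rw [← Real.exp_nat_mul]; congr 1; push_cast; ring
      rw [h5] at h3
      rw [h6]
      have h7 : 0 ≤ K * S := mul_nonneg hK.le hS0
      set u := Real.exp ((s.re - (1 / 2 + α)) * y) with hu
      set v := Real.exp ((1 / 2 + α) * y) * ‖dv h y‖ with hv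
      have hv2 : v ^ 2 = Real.exp ((1 / 2 + α) * y) ^ 2 * ‖dv h y‖ ^ 2 := by rw [hv]; ring
      rw [← hv2]
      calc _ ≤ Real.exp (s.re * y) * ((1 + |y|) * ‖dv h y‖) := by gcongr
        _ = ((1 + |y|) * u) * v := h4
        _ ≤ ((1 + |y|) * u) ^ 2 + v ^ 2 := by nlinarith [sq_nonneg ((1 + |y|) * u - v), sq_nonneg v, sq_nonneg ((1 + |y|) * u)]
        _ = (1 + |y|) ^ 2 * u ^ 2 + v ^ 2 := by ring
        _ ≤ (1 + |y|) ^ 2 * (W * Real.exp (-δ * |y|)) + v ^ 2 := by gcongr
        _ = W * 1 * ((1 + |y|) ^ 2 * Real.exp (-δ * |y|)) + 1 * v ^ 2 := by ring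
        _ ≤ W * (1 + K * S) * ((1 + |y|) ^ 2 * Real.exp (-δ * |y|)) + W * v ^ 2 :=
            add_le_add (mul_le_mul_of_nonneg_right (mul_le_mul_of_nonneg_left (le_add_of_nonneg_right h7)
              (zero_le_one.trans hW1)) (mul_nonneg (sq_nonneg _) (Real.exp_pos _).le))
              (mul_le_mul_of_nonneg_right hW1 (sq_nonneg v))
  have h3 := norm_integral_le_of_norm_le ((hI.const_mul (W * (1 + K * S))).add (hi2.const_mul W))
    (Eventually.of_forall hpt)
  have h4 := hE h hg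
  rw [← hS] at h4
  unfold lap
  refine h3.trans ?_
  simp only [Pi.add_apply]
  rw [integral_add (hI.const_mul _) (hi2.const_mul _), integral_const_mul, integral_const_mul, ← hI2]
  have h5 : W * (∫ y, Real.exp (2 * (1 / 2 + α) * y) * ‖dv h y‖ ^ 2) ≤ W * (K * S) := by gcongr
  have h6 : W * (1 + K * S) * I2 + W * (K * S) ≤ W * (I2 * (1 + K) + K) * (1 + S) := by
    have a1 : 0 ≤ W * I2 * S := by positivity
    have a2 : 0 ≤ W * I2 * K := by positivity
    have a3 : 0 ≤ W * K := by positivity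
    nlinarith
  linarith

end

end Pool.Agent.H483.ZP
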