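import Pool.Agent.H483.ZP.Sep

set_option autoImplicit false

/-!
# Separation of the test functions with a pole, II
-/

namespace Pool.Agent.H483.ZP

open MeasureTheory Set Filter Topology Complex FourierTransform
open Pool.Agent.H336R4.PF Pool.Agent.H483.FE Pool.Agent.H483.SA
open scoped ComplexConjugate

/-- vectors in the orthogonal complement, not orthogonal to given vectors -/
theorem hilb {H : Type*} [NormedAddCommGroup H] [InnerProductSpace ℝ H] [CompleteSpace H] (M : Submodule ℝ H)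
    {ι : Type*} [Countable ι] (x : ι → H) (hx : ∀ i, ∃ θ : ℝ, 0 < θ ∧ ∀ y ∈ M, θ ≤ ‖x i - y‖) {R : ℝ} (hR : 0 < R) :
    ∃ v ∈ Mᗮ, ‖v‖ ≤ R ∧ ∀ i, inner ℝ v (x i) ≠ 0 := by
  have hcomp : CompleteSpace Mᗮ := (Submodule.isClosed_orthogonal M).completeSpace_coe
  have hu : ∀ i, ∃ u : Mᗮ, inner ℝ (u : H) (x i) ≠ 0 := by
    intro i
    by_contra hcon
    push Not at hcon
    have h1 : x i ∈ Mᗮᗮ := by
      rw [Submodule.mem_orthogonal]
      intro u hu
      exact hcon ⟨u, hu⟩
    rw [Submodule.orthogonal_orthogonal_eq_closure] at h1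
    obtain ⟨θ, hθ, h⟩ := hx i
    have h2 : x i ∈ closure (M : Set H) := h1
    obtain ⟨y, hy, hy2⟩ := Metric.mem_closure_iff.1 h2 θ hθ
    rw [dist_eq_norm] at hy2
    exact absurd (h y hy) (not_le.2 hy2)
  have ho : ∀ i, IsOpen {v : Mᗮ | inner ℝ (v : H) (x i) ≠ 0} := by
    intro i
    apply isOpen_ne_fun
    · fun_prop
    · fun_prop
  have hd : ∀ i, Dense {v : Mᗮ | inner ℝ (v : H) (x i) ≠ 0} := by
    intro i
    obtain ⟨u, hu⟩ := hu i
    have hu0 : 0 < ‖u‖ := by
      rw [norm_pos_iff]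
      rintro rfl
      simp at hu
    rw [Metric.dense_iff]
    intro v r hr
    by_cases hv : inner ℝ (v : H) (x i) = 0
    · refine ⟨v + (r / (2 * ‖u‖)) • u, ?_, ?_⟩
      · rw [Metric.mem_ball, dist_eq_norm, add_sub_cancel_left, norm_smul, Real.norm_eq_abs, abs_of_pos (by positivity)]
        have : r / (2 * ‖u‖) * ‖u‖ = r / 2 := by field_simp
        rw [this]
        linarith
      · show inner ℝ ((v + (r / (2 * ‖u‖)) • u : Mᗮ) : H) (x i) ≠ 0
        rw [Submodule.coe_add, Submodule.coe_smul]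
        rw [inner_add_left, inner_smul_left, hv, zero_add]
        exact mul_ne_zero (by simpa using ⟨hr.ne', fun h => hu0.ne' (by rw [h]; simp)⟩) hu
    · exact ⟨v, Metric.mem_ball_self hr, hv⟩
  have hD := dense_iInter_of_isOpen ho hd
  rw [Metric.dense_iff] at hD
  obtain ⟨v, hv1, hv2⟩ := hD 0 R hR
  rw [mem_iInter] at hv2
  refine ⟨v, v.2, ?_, hv2⟩
  rw [mem_ball_zero_iff] at hv1
  exact hv1.le

/-- a small circle -/
lemma exists_circle {X : ℂ → ℂ} (hX : Differentiable ℂ X) (hX1 : ∃ s, X s ≠ 0) (ρ : ℂ) {ε : ℝ} (hε : 0 < ε) :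
    ∃ r : ℝ, 0 < r ∧ r < ε ∧ (∀ z ∈ Metric.closedBall ρ r, z ≠ ρ → X z ≠ 0) ∧
      (ρ ≠ 1 - conj ρ → 1 - conj ρ ∉ Metric.closedBall ρ r) := by
  have h1 : ∀ᶠ z in 𝓝[≠] ρ, X z ≠ 0 := by
    rcases (hX.analyticAt ρ).eventually_eq_zero_or_eventually_ne_zero with h | h
    · exfalso
      obtain ⟨s, hs⟩ := hX1
      have h2 : AnalyticOnNhd ℂ X univ := fun z _ => hX.analyticAt z
      have h3 := h2.eqOn_zero_of_preconnected_of_eventuallyEq_zero isPreconnected_univ (mem_univ ρ) h
      exact hs (h3 (mem_univ s))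
    · exact h
  rw [eventually_nhdsWithin_iff, Metric.eventually_nhds_iff] at h1
  obtain ⟨ε1, hε1, h1⟩ := h1
  set d := if ρ = 1 - conj ρ then 1 else dist (1 - conj ρ) ρ with hd
  have hd0 : 0 < d := by
    rw [hd]
    split_ifs with h
    · exact one_pos
    · exact dist_pos.2 (Ne.symm h)
  refine ⟨min (min ε ε1) d / 2, by positivity, ?_, ?_, ?_⟩
  · have : min (min ε ε1) d ≤ ε := (min_le_left _ _).trans (min_le_left _ _)
    linarith
  · intro z hz hne
    apply h1 _ hne
    rw [Metric.mem_closedBall] at hz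
    have h2 : min (min ε ε1) d ≤ ε1 := (min_le_left _ _).trans (min_le_right _ _)
    have h3 : 0 < min (min ε ε1) d := by positivity
    linarith
  · intro hne hmem
    rw [Metric.mem_closedBall] at hmem
    have h2 : min (min ε ε1) d ≤ d := min_le_right _ _
    have h3 : 0 < min (min ε ε1) d := by positivity
    rw [hd, if_neg hne] at h2
    rw [hd, if_neg hne] at h3
    rw [hd, if_neg hne] at hmem
    linarith

lemma ee_int {ρ : ℂ} {r : ℝ} (hr : 0 < r) (h : ρ ≠ 1 - conj ρ → 1 - conj ρ ∉ Metric.closedBall ρ r) :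
    (∮ z in C(ρ, r), ee ρ z) ≠ 0 := by
  have h1 : (∮ z in C(ρ, r), (z - ρ)⁻¹ • ga z) = (2 * Real.pi * I : ℂ) • ga ρ :=
    (ga_diff.diffContOnCl (s := Metric.ball ρ r)).circleIntegral_sub_inv_smul (Metric.mem_ball_self hr)
  have hga : ga ρ ≠ 0 := Complex.exp_ne_zero _
  have hpi : (2 * Real.pi * I : ℂ) ≠ 0 := Complex.two_pi_I_ne_zero
  by_cases hc : ρ = 1 - conj ρ
  · have e : ∀ z, ee ρ z = (2:ℂ) • ((z - ρ)⁻¹ • ga z) := by
      intro z
      unfold ee
      rw [← hc]
      simp only [smul_eq_mul, one_div]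
      ring
    simp_rw [e]
    rw [circleIntegral.integral_smul, h1]
    simp only [smul_eq_mul]
    exact mul_ne_zero two_ne_zero (mul_ne_zero hpi hga)
  · have hn := h hc
    have e : ∀ z, ee ρ z = (z - ρ)⁻¹ • ga z + ga z / (z - (1 - conj ρ)) := by
      intro z
      unfold ee
      simp only [smul_eq_mul, one_div]
      ring
    have hne : ∀ z ∈ Metric.closedBall ρ r, z - (1 - conj ρ) ≠ 0 := by
      intro z hz h0
      rw [sub_eq_zero] at h0
      rw [h0] at hz
      exact hn hz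
    have h2 : (∮ z in C(ρ, r), ga z / (z - (1 - conj ρ))) = 0 := by
      apply Complex.circleIntegral_eq_zero_of_differentiable_on_off_countable hr.le (Set.countable_empty)
      · intro z hz
        have := ga_diff.continuous.continuousAt (x := z)
        exact (this.div (by fun_prop) (hne z hz)).continuousWithinAt
      · intro z hz
        exact (ga_diff z).div (by fun_prop) (hne z (Metric.ball_subset_closedBall hz.1))
    have i1 : CircleIntegrable (fun z => (z - ρ)⁻¹ • ga z) ρ r := by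
      apply ContinuousOn.circleIntegrable hr.le
      intro z hz
      have hz0 : z - ρ ≠ 0 := by
        intro h0
        rw [sub_eq_zero] at h0
        rw [h0, mem_sphere_iff_norm, sub_self, norm_zero] at hz
        exact hr.ne hz
      have := ga_diff.continuous.continuousAt (x := z)
      have h3 : ContinuousAt (fun z : ℂ => (z - ρ)⁻¹) z :=
        (by fun_prop : ContinuousAt (fun z : ℂ => z - ρ) z).inv₀ hz0
      exact (h3.smul this).continuousWithinAt
    have i2 : CircleIntegrable (fun z => ga z / (z - (1 - conj ρ))) ρ r := by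
      apply ContinuousOn.circleIntegrable hr.le
      intro z hz
      have := ga_diff.continuous.continuousAt (x := z)
      exact (this.div (by fun_prop) (hne z (Metric.sphere_subset_closedBall hz))).continuousWithinAt
    simp_rw [e]
    rw [circleIntegral.integral_add i1 i2, h1, h2, add_zero]
    simp only [smul_eq_mul]
    exact mul_ne_zero hpi hga

section

variable {γ X : ℂ → ℂ} {α y0 K Q : ℝ}

/-- the symbol of a good function is holomorphic where the kernel does not vanish -/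
lemma symb_diff {γ : ℂ → ℂ} {α : ℝ} (A : Adm γ α) {h : ℝ → ℂ} {q : ℂ → ℂ} (hc : Continuous h) (hD : Dec h)
    (hl : ∀ s : ℂ, 0 < s.re → lap h s = γ s * q s) {z : ℂ} (hz : 0 < z.re) (hγ : γ z ≠ 0) : DifferentiableAt ℂ q z := by
  have h1 : DifferentiableAt ℂ (fun w => lap h w / γ w) z := (lap_diff hD hc hz).div (A.diff z hz) hγ
  refine h1.congr_of_eventuallyEq ?_
  have e1 : ∀ᶠ w in 𝓝 z, 0 < w.re := (isOpen_lt continuous_const Complex.continuous_re).mem_nhds hz
  have e2 : ∀ᶠ w in 𝓝 z, γ w ≠ 0 := (A.diff z hz).continuousAt.eventually_ne hγ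
  filter_upwards [e1, e2] with w hw1 hw2
  rw [hl w hw1]
  field_simp

/-- **Separation.** -/
theorem sep (A : Adm γ α) (hQ : 0 < Q) (D : Dt γ α y0 K Q) (hE : En2 γ α y0 K Q) (hK : 0 < K) (hy0 : y0 ≤ 0)
    (hγ : ∀ s : ℂ, 0 < s.re → γ s ≠ 0) (hX : Differentiable ℂ X) (hXs : ∀ s, X (1 - conj s) = conj (X s)) (hXb : SB X)
    (hX1 : ∃ s, X s ≠ 0) {ρ : ℂ} (hρ : |ρ.re - 1 / 2| < α) (hXρ : X ρ = 0) {g : ℝ → ℂ} (hgg : Good γ g)
    (hg : ∀ σ : ℝ, 0 < σ → ∀ y : ℝ, g y = cexp (-(σ * y : ℝ)) * 𝓕 (fun t : ℝ => γ (ln σ t) * kk X ρ (ln σ t)) y) :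
    ∃ θ : ℝ, 0 < θ ∧ ∀ k (hk : Good (fun s => γ s * X s) k),
      θ ≤ ‖TS A hQ D ⟨g, hgg⟩ - TS A hQ D ⟨k, good_mul hX hXs hXb hk⟩‖ := by
  have hα2 := A.lt
  obtain ⟨r, hr, hrε, hXne, hcc⟩ := exists_circle hX hX1 ρ (ε := α - |ρ.re - 1 / 2|) (by linarith)
  have hstrip : ∀ z ∈ Metric.closedBall ρ r, 1 / 2 - (|ρ.re - 1 / 2| + r) ≤ z.re ∧ z.re ≤ 1 / 2 + (|ρ.re - 1 / 2| + r) := by
    intro z hz
    rw [Metric.mem_closedBall, dist_eq_norm] at hz
    have h1 := (Complex.abs_re_le_norm (z - ρ)).trans hz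
    rw [Complex.sub_re, abs_le] at h1
    have h2 := neg_abs_le (ρ.re - 1 / 2)
    have h3 := le_abs_self (ρ.re - 1 / 2)
    constructor <;> linarith [h1.1, h1.2]
  have hpos : ∀ z ∈ Metric.closedBall ρ r, 0 < z.re := fun z hz => by
    have := (hstrip z hz).1
    linarith
  obtain ⟨C, hC, hlap⟩ := lap_bound A hQ D hE hK hy0 (σ₁ := 1 / 2 - (|ρ.re - 1 / 2| + r))
    (σ₂ := 1 / 2 + (|ρ.re - 1 / 2| + r)) (by linarith) (by linarith)
  have hsne : ∀ z ∈ Metric.sphere ρ r, γ z * X z ≠ 0 := by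
    intro z hz
    have hz' := Metric.sphere_subset_closedBall hz
    refine mul_ne_zero (hγ z (hpos z hz')) (hXne z hz' ?_)
    rintro rfl
    rw [mem_sphere_iff_norm, sub_self, norm_zero] at hz
    exact hr.ne hz
  obtain ⟨B, hB⟩ := (isCompact_sphere ρ r).exists_bound_of_continuousOn (f := fun z => (γ z * X z)⁻¹) (by
    intro z hz
    have h1 := (A.diff z (hpos z (Metric.sphere_subset_closedBall hz))).continuousAt
    have h2 := hX.continuous.continuousAt (x := z)
    exact ((h1.mul h2).inv₀ (hsne z hz)).continuousWithinAt)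
  set J := ∮ z in C(ρ, r), ee ρ z with hJ
  have hJ0 : 0 < ‖J‖ := norm_pos_iff.2 (ee_int hr hcc)
  set C' := 2 * Real.pi * r * (C * 2 * |B|) with hC'
  obtain ⟨N, hN⟩ := exists_nat_gt (C' / ‖J‖)
  have hC'0 : 0 ≤ C' := by have := Real.pi_pos; positivity
  have hN0 : (0:ℝ) < N := lt_of_le_of_lt (by positivity) hN
  rw [div_lt_iff₀ hJ0] at hN
  refine ⟨1 / N, by positivity, fun k hk => ?_⟩
  by_contra hcon
  push Not at hcon
  set hkγ := good_mul hX hXs hXb hk with hkγ'
  set u : GS A := (N : ℝ) • ((⟨g, hgg⟩ : GS A) - ⟨k, hkγ⟩) with hu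
  have hug : Good γ (u : ℝ → ℂ) := u.2
  have hTu : ‖TS A hQ D u‖ ≤ 1 := by
    rw [hu, map_smul, map_sub, norm_smul, Real.norm_eq_abs, abs_of_pos hN0]
    calc _ ≤ (N : ℝ) * (1 / N) := by gcongr
      _ = 1 := by field_simp
  have hSu : SS α y0 Q (u : ℝ → ℂ) ≤ 1 := by
    rw [← TS_norm A hQ D u]
    exact pow_le_one₀ (norm_nonneg _) hTu
  have hgc := good_cont A hgg
  have hgD := good_dec hgg
  have hkc := good_cont A hkγ
  have hkD := good_dec hkγ
  obtain ⟨q, hq1, hq2, hq3, hq4⟩ := hk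
  have A1 := adm_mul A hX hXs hXb
  have hlk : ∀ s : ℂ, 0 < s.re → lap k s = γ s * X s * q s := fun s hs => lap_eq A1 hq1 hq2 hkc hkD hq4 hs
  have hpb : ∀ σ : ℝ, ∃ B : ℝ, ∀ t : ℝ, ‖kk X ρ (ln σ t)‖ ≤ B := by
    intro σ
    obtain ⟨C, hC, h⟩ := kk_decay hX hXb ρ σ σ
    refine ⟨C, fun t => (h _ (by simp) (by simp)).trans ?_⟩
    apply mul_le_of_le_one_right hC
    rw [Real.exp_le_one_iff]
    have := abs_nonneg (ln σ t).im
    linarith
  have hlg : ∀ s : ℂ, 0 < s.re → lap g s = γ s * kk X ρ s := fun s hs =>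
    lap_eq A (kk_diff hX ρ).continuous hpb hgc hgD hg hs
  have hlu : ∀ s : ℂ, 0 < s.re → lap (u : ℝ → ℂ) s = N * (lap g s - lap k s) := by
    intro s hs
    unfold lap
    rw [← integral_sub (lap_int hgc hgD hs) (lap_int hkc hkD hs), ← integral_const_mul]
    congr 1
    funext y
    have : (u : ℝ → ℂ) y = N * (g y - k y) := by
      rw [hu]
      simp only [Submodule.coe_smul, Submodule.coe_sub, Pi.smul_apply, Pi.sub_apply, Complex.real_smul]
      push_cast
      rfl
    rw [this]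
    ring
  have hX1ρ : X (1 - conj ρ) = 0 := by rw [hXs, hXρ, map_zero]
  have hval : ∀ z ∈ Metric.sphere ρ r, lap (u : ℝ → ℂ) z * (γ z * X z)⁻¹ = N * (ee ρ z - q z) := by
    intro z hz
    have hz' := Metric.sphere_subset_closedBall hz
    have hz1 : z ≠ ρ := by
      rintro rfl
      rw [mem_sphere_iff_norm, sub_self, norm_zero] at hz
      exact hr.ne hz
    have hz2 : z ≠ 1 - conj ρ := by
      intro h
      by_cases hc : ρ = 1 - conj ρ
      · exact hz1 (h.trans hc.symm)
      · exact hcc hc (h ▸ hz')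
    have h1 := hsne z hz
    rw [hlu z (hpos z hz'), hlg z (hpos z hz'), hlk z (hpos z hz'), kk_eq hXρ hX1ρ hz1 hz2]
    have h2 : γ z ≠ 0 := left_ne_zero_of_mul h1
    have h3 : X z ≠ 0 := right_ne_zero_of_mul h1
    field_simp
  have hq0 : (∮ z in C(ρ, r), q z) = 0 := by
    apply Complex.circleIntegral_eq_zero_of_differentiable_on_off_countable hr.le (Set.countable_singleton ρ)
    · exact hq1.continuousOn
    · intro z hz
      have hz' := Metric.ball_subset_closedBall hz.1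
      exact symb_diff A1 hkc hkD hlk (hpos z hz') (mul_ne_zero (hγ z (hpos z hz')) (hXne z hz' hz.2))
  have hee : CircleIntegrable (ee ρ) ρ r := by
    apply ContinuousOn.circleIntegrable hr.le
    intro z hz
    have hz' := Metric.sphere_subset_closedBall hz
    have hz1 : z - ρ ≠ 0 := by
      intro h
      rw [sub_eq_zero] at h
      rw [h, mem_sphere_iff_norm, sub_self, norm_zero] at hz
      exact hr.ne hz
    have hz2 : z - (1 - conj ρ) ≠ 0 := by
      intro h
      rw [sub_eq_zero] at h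
      by_cases hc : ρ = 1 - conj ρ
      · rw [h, ← hc, sub_self] at hz1
        exact hz1 rfl
      · exact hcc hc (h ▸ hz')
    have h1 := ga_diff.continuous.continuousAt (x := z)
    unfold ee
    refine ContinuousAt.continuousWithinAt ?_
    refine h1.mul (ContinuousAt.add ?_ ?_)
    · exact continuousAt_const.div (by fun_prop) hz1
    · exact continuousAt_const.div (by fun_prop) hz2
  have hint : (∮ z in C(ρ, r), lap (u : ℝ → ℂ) z * (γ z * X z)⁻¹) = N * J := by
    rw [circleIntegral.integral_congr hr.le hval]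
    have e : ∀ z, (N : ℂ) * (ee ρ z - q z) = (N : ℂ) • (ee ρ z - q z) := fun z => rfl
    simp_rw [e]
    rw [circleIntegral.integral_smul, circleIntegral.integral_sub hee (hq1.continuousOn.circleIntegrable hr.le), hq0,
      sub_zero, smul_eq_mul]
  have hbd : ‖∮ z in C(ρ, r), lap (u : ℝ → ℂ) z * (γ z * X z)⁻¹‖ ≤ 2 * Real.pi * r * (C * 2 * |B|) := by
    apply circleIntegral.norm_integral_le_of_norm_le_const hr.le
    intro z hz
    have hz' := Metric.sphere_subset_closedBall hz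
    rw [norm_mul]
    have h1 := hlap (u : ℝ → ℂ) hug z (hstrip z hz').1 (hstrip z hz').2
    have h2 : C * (1 + SS α y0 Q (u : ℝ → ℂ)) ≤ C * 2 := by gcongr; linarith
    have h3 := (hB z hz).trans (le_abs_self B)
    exact mul_le_mul (h1.trans h2) h3 (norm_nonneg _) (by positivity)
  rw [hint, norm_mul, Complex.norm_natCast] at hbd
  linarith

end

end Pool.Agent.H483.ZP
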