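import Pool.Agent.H483.ZP.Ker
import Pool.Graph.R_seed8.H448R2.GC.X2

set_option autoImplicit false

/-!
# The function `ξ` and the second kernel
-/

namespace Pool.Agent.H483.ZP

open Set Filter Topology Complex Asymptotics
open Pool.Agent.H483.FE Pool.Agent.H483.SA
open scoped ComplexConjugate

/-- `s (s - 1) π^{-s/2} Γ(s/2) ζ(s)` -/
noncomputable def xi (s : ℂ) : ℂ := s * (s - 1) * completedRiemannZeta₀ s + 1

lemma xi_diff : Differentiable ℂ xi :=
  ((differentiable_id.mul (differentiable_id.sub_const 1)).mul differentiable_completedZeta₀).add_const 1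

lemma xi_one_sub (s : ℂ) : xi (1 - s) = xi s := by
  unfold xi
  rw [completedRiemannZeta₀_one_sub]
  ring

lemma xi_one : xi 1 = 1 := by
  unfold xi
  simp

/-- `(s - 1) ζ(s)` -/
noncomputable def Zf : ℂ → ℂ := Function.update (fun w : ℂ => (w - 1) * riemannZeta w) 1 1

lemma Zf_one : Zf 1 = 1 := Function.update_self _ _ _

lemma Zf_of {s : ℂ} (hs : s ≠ 1) : Zf s = (s - 1) * riemannZeta s := Function.update_of_ne hs _ _

lemma Zf_diff : Differentiable ℂ Zf := Pool.Agent.H448R2.GC.zeta_one_entire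

lemma xi_eq {s : ℂ} (hs : 0 < s.re) : xi s = s * Zf s * Gammaℝ s := by
  have hs0 : s ≠ 0 := by rintro rfl; simp at hs
  rcases eq_or_ne s 1 with rfl | h1
  · rw [xi_one, Zf_one, Gammaℝ_one]; ring
  · have hg := Gammaℝ_ne_zero_of_re_pos hs
    have h2 : (1:ℂ) - s ≠ 0 := sub_ne_zero.2 h1.symm
    rw [Zf_of h1, riemannZeta_def_of_ne_zero hs0, completedRiemannZeta_eq]
    unfold xi
    field_simp
    ring

lemma Zf_conj (s : ℂ) : Zf (conj s) = conj (Zf s) := by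
  rcases eq_or_ne s 1 with rfl | h1
  · rw [map_one, Zf_one, map_one]
  · have h2 : conj s ≠ 1 := by
      intro h
      apply h1
      have := congrArg conj h
      simpa using this
    rw [Zf_of h1, Zf_of h2, map_mul, map_sub, map_one, riemannZeta_conj]

lemma xi_conj (s : ℂ) : xi (conj s) = conj (xi s) := by
  have key : ∀ s : ℂ, 0 < s.re → xi (conj s) = conj (xi s) := by
    intro s hs
    rw [xi_eq hs, xi_eq (s := conj s) (by simpa using hs), map_mul, map_mul, Zf_conj, gR_conj]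
  rcases lt_or_ge 0 s.re with hs | hs
  · exact key s hs
  · have h1 := key (1 - s) (by simp; linarith)
    rw [xi_one_sub] at h1
    rw [← h1, map_sub, map_one, xi_one_sub]

lemma xi_sym (s : ℂ) : xi (1 - conj s) = conj (xi s) := by
  rw [xi_one_sub, xi_conj]

lemma Zf_bound {s : ℂ} (hs : 0 < s.re) : ‖Zf s‖ ≤ ‖s - 1‖ * (1 + ‖s‖ / s.re) + 1 := by
  rcases eq_or_ne s 1 with rfl | h1
  · rw [Zf_one]; simp
  · have h2 := Pool.Agent.H448R2.GC.X2.zeta_bd s hs h1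
    have h3 : 0 < ‖s - 1‖ := norm_pos_iff.2 (sub_ne_zero.2 h1)
    rw [Zf_of h1, norm_mul]
    calc _ ≤ ‖s - 1‖ * (1 + 1 / ‖s - 1‖ + ‖s‖ / s.re) := by gcongr
      _ = _ := by field_simp; ring

lemma xi_half {b : ℝ} (hb : 1 / 2 ≤ b) : ∃ C M T : ℝ, 0 ≤ C ∧ 0 ≤ M ∧ ∀ s : ℂ, 1 / 2 ≤ s.re → s.re ≤ b →
    T ≤ |s.im| → ‖xi s‖ ≤ C * st M (1 / 2) s.im := by
  obtain ⟨C, M, T, hC, hM, h⟩ := gR_UpB (1 / 2) b hb
  refine ⟨(b + 1) * ((b + 2) * (1 + 2 * (b + 1)) + 1) * C, 3 + M, T, by positivity, by linarith, fun s h1 h2 hT => ?_⟩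
  have h0 := abs_nonneg s.im
  have hs0 : 0 < s.re := by linarith
  rw [xi_eq hs0, norm_mul, norm_mul]
  have e0 : st (3 + M) (1 / 2) s.im = (1 + |s.im|) ^ (3:ℝ) * st M (1 / 2) s.im := by
    have : (1 + |s.im|) ^ (3:ℝ) = st 3 0 s.im := by unfold st; simp
    rw [this, st_mul, zero_add]
  rw [e0]
  have k1 : ‖s‖ ≤ (b + 1) * (1 + |s.im|) := by
    refine (Complex.norm_le_abs_re_add_abs_im s).trans ?_
    rw [abs_of_pos hs0]
    nlinarith
  have k2 : ‖s - 1‖ ≤ (b + 2) * (1 + |s.im|) := by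
    refine (norm_sub_le _ _).trans ?_
    rw [norm_one]
    nlinarith
  have k3 : ‖s‖ / s.re ≤ 2 * (b + 1) * (1 + |s.im|) := by
    rw [div_le_iff₀ hs0]
    have : 0 ≤ (b + 1) * (1 + |s.im|) := by positivity
    nlinarith
  have k4 := Zf_bound hs0
  have k5 : ‖Zf s‖ ≤ ((b + 2) * (1 + 2 * (b + 1)) + 1) * (1 + |s.im|) ^ 2 := by
    have h5 : 1 ≤ (1 + |s.im|) ^ 2 := by nlinarith
    have h6 : 1 ≤ 1 + |s.im| := by linarith
    calc _ ≤ ‖s - 1‖ * (1 + ‖s‖ / s.re) + 1 := k4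
      _ ≤ ((b + 2) * (1 + |s.im|)) * ((1 + |s.im|) + 2 * (b + 1) * (1 + |s.im|)) + 1 * (1 + |s.im|) ^ 2 := by
          gcongr
          linarith
      _ = _ := by ring
  have k6 := h s h1 h2 hT
  have k7 : 0 ≤ st M (1 / 2) s.im := (st_pos _ _ _).le
  calc _ ≤ ((b + 1) * (1 + |s.im|)) * (((b + 2) * (1 + 2 * (b + 1)) + 1) * (1 + |s.im|) ^ 2) *
        (C * st M (1 / 2) s.im) := by gcongr
    _ = (b + 1) * ((b + 2) * (1 + 2 * (b + 1)) + 1) * C * ((1 + |s.im|) ^ 3 * st M (1 / 2) s.im) := by ring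
    _ = _ := by
        rw [← Real.rpow_natCast (1 + |s.im|) 3]
        norm_num

lemma xi_UpB : UpB xi (1 / 2) := by
  intro a b hab
  obtain ⟨C, M, T, hC, hM, h⟩ := xi_half (b := |a| + |b| + 1) (by linarith [abs_nonneg a, abs_nonneg b])
  refine ⟨C, M, T, hC, hM, fun s h1 h2 hT => ?_⟩
  have ha := abs_nonneg a
  have hb := abs_nonneg b
  have ha' := neg_abs_le a
  have hb' := le_abs_self b
  rcases le_total (1 / 2) s.re with h3 | h3
  · exact h s h3 (by linarith) hT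
  · have e : (1 - s).im = -s.im := by simp
    have h4 := h (1 - s) (by simp; linarith) (by simp; linarith) (by rw [e, abs_neg]; exact hT)
    rw [xi_one_sub, e] at h4
    have e2 : st M (1 / 2) (-s.im) = st M (1 / 2) s.im := by unfold st; rw [abs_neg]
    rwa [e2] at h4

/-- decay of an entire function in all strips -/
lemma decay_entire {f : ℂ → ℂ} {κ : ℝ} (hU : UpB f κ) (hκ : 0 < κ) (hd : Continuous f) : ∀ a b : ℝ, a ≤ b →
    ∃ C δ : ℝ, 0 < δ ∧ 0 ≤ C ∧ ∀ s : ℂ, a ≤ s.re → s.re ≤ b → ‖f s‖ ≤ C * Real.exp (-δ * |s.im|) := by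
  intro a b hab
  obtain ⟨C, M, T, hC, hM, h⟩ := hU a b hab
  obtain ⟨C', δ, hδ, hC', h'⟩ := st_decay hM hκ
  set T0 := max T 0 with hT0
  have hK : IsCompact (Icc a b ×ℂ Icc (-T0) T0) := isCompact_Icc.reProdIm isCompact_Icc
  obtain ⟨B, hB⟩ := hK.exists_bound_of_continuousOn hd.continuousOn
  refine ⟨C * C' + |B| * Real.exp (δ * T0), δ, hδ, by positivity, fun s h1 h2 => ?_⟩
  rcases le_total T0 |s.im| with ht | ht
  · calc _ ≤ C * st M κ s.im := h s h1 h2 ((le_max_left _ _).trans ht)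
      _ ≤ C * (C' * Real.exp (-δ * |s.im|)) := by gcongr; exact h' _
      _ = C * C' * Real.exp (-δ * |s.im|) := by ring
      _ ≤ _ := by
        apply mul_le_mul_of_nonneg_right _ (Real.exp_pos _).le
        have : 0 ≤ |B| * Real.exp (δ * T0) := by positivity
        linarith
  · have hs : s ∈ Icc a b ×ℂ Icc (-T0) T0 := by
      rw [mem_reProdIm]; exact ⟨⟨h1, h2⟩, abs_le.1 ht⟩
    have k1 : 1 ≤ Real.exp (δ * T0) * Real.exp (-δ * |s.im|) := by
      rw [← Real.exp_add]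
      apply Real.one_le_exp
      nlinarith
    calc _ ≤ B := hB s hs
      _ ≤ |B| := le_abs_self _
      _ ≤ |B| * (Real.exp (δ * T0) * Real.exp (-δ * |s.im|)) := le_mul_of_one_le_right (abs_nonneg _) k1
      _ = |B| * Real.exp (δ * T0) * Real.exp (-δ * |s.im|) := by ring
      _ ≤ _ := by
        apply mul_le_mul_of_nonneg_right _ (Real.exp_pos _).le
        have : 0 ≤ C * C' := by positivity
        linarith

/-- boundedness in all strips -/
def SB (f : ℂ → ℂ) : Prop := ∀ a b : ℝ, ∃ C : ℝ, ∀ s : ℂ, a ≤ s.re → s.re ≤ b → ‖f s‖ ≤ C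

lemma xi_SB : SB xi := by
  intro a b
  rcases le_total a b with hab | hab
  · obtain ⟨C, δ, hδ, hC, h⟩ := decay_entire xi_UpB (by norm_num) xi_diff.continuous a b hab
    refine ⟨C, fun s h1 h2 => (h s h1 h2).trans ?_⟩
    apply mul_le_of_le_one_right hC
    rw [Real.exp_le_one_iff]
    nlinarith [abs_nonneg s.im]
  · obtain ⟨C, δ, hδ, hC, h⟩ := decay_entire xi_UpB (by norm_num) xi_diff.continuous b a hab
    refine ⟨C, fun s h1 h2 => (h s (by linarith) (by linarith)).trans ?_⟩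
    apply mul_le_of_le_one_right hC
    rw [Real.exp_le_one_iff]
    nlinarith [abs_nonneg s.im]

lemma SB.pow {f : ℂ → ℂ} (hf : SB f) (m : ℕ) : SB (fun s => f s ^ m) := by
  intro a b
  obtain ⟨C, h⟩ := hf a b
  refine ⟨|C| ^ m, fun s h1 h2 => ?_⟩
  rw [norm_pow]
  exact pow_le_pow_left₀ (norm_nonneg _) ((h s h1 h2).trans (le_abs_self _)) m

/-- the factor `ξ^m` -/
noncomputable def XX (m : ℕ) (s : ℂ) : ℂ := xi s ^ m

lemma XX_diff (m : ℕ) : Differentiable ℂ (XX m) := xi_diff.pow m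
lemma XX_SB (m : ℕ) : SB (XX m) := xi_SB.pow m
lemma XX_sym (m : ℕ) (s : ℂ) : XX m (1 - conj s) = conj (XX m s) := by
  unfold XX; rw [xi_sym, map_pow]
lemma XX_one (m : ℕ) : XX m 1 = 1 := by unfold XX; rw [xi_one, one_pow]

lemma XX_eq (m : ℕ) {s : ℂ} (hs : 0 < s.re) : XX m s = (s * Zf s) ^ m * Gammaℝ s ^ m := by
  unfold XX; rw [xi_eq hs, mul_pow]

lemma XX_zero {m : ℕ} (hm : 1 ≤ m) {ρ : ℂ} (h0 : 0 < ρ.re) (hρ : riemannZeta ρ = 0) : XX m ρ = 0 := by
  have h1 : ρ ≠ 1 := by rintro rfl; exact riemannZeta_one_ne_zero hρ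
  rw [XX_eq m h0, Zf_of h1, hρ]
  simp
  omega

variable {r : ℕ}

/-- the kernel for `H` -/
noncomputable def g1 (c : ℂ) (lam : Fin r → ℝ) (mu : Fin r → ℂ) (m : ℕ) (s : ℂ) : ℂ := g2 c lam mu m s * XX m s

lemma g1_eq (c : ℂ) (lam : Fin r → ℝ) (mu : Fin r → ℂ) (m : ℕ) {s : ℂ} (hs : 0 < s.re) :
    g1 c lam mu m s = gm c lam mu s * (s * Zf s) ^ m := by
  have hg := Gammaℝ_ne_zero_of_re_pos hs
  unfold g1 g2 rg
  rw [XX_eq m hs, inv_pow]
  field_simp

/-- multiplication of an admissible kernel by `X` -/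
theorem adm_mul {γ X : ℂ → ℂ} {α : ℝ} (A : Adm γ α) (hX : Differentiable ℂ X) (hXs : ∀ s, X (1 - conj s) = conj (X s))
    (hXb : SB X) : Adm (fun s => γ s * X s) α := by
  refine ⟨fun s hs => (A.diff s hs).mul (hX s), fun a b ha hab => ?_, A.pos, A.lt, ?_⟩
  · obtain ⟨C, δ, hδ, h⟩ := A.decay a b ha hab
    obtain ⟨B, hB⟩ := hXb a b
    refine ⟨|C| * |B|, δ, hδ, fun s h1 h2 => ?_⟩
    rw [norm_mul]
    calc _ ≤ (|C| * Real.exp (-δ * |s.im|)) * |B| := by
          refine mul_le_mul ((h s h1 h2).trans ?_) ((hB s h1 h2).trans (le_abs_self _)) (norm_nonneg _) (by positivity)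
          exact mul_le_mul_of_nonneg_right (le_abs_self _) (Real.exp_pos _).le
      _ = _ := by ring
  · obtain ⟨C, hC, h⟩ := A.ratio
    refine ⟨C, hC, fun t => ?_⟩
    have e : ((1 / 2 + α : ℝ) : ℂ) + t * I = 1 - conj (((1 / 2 - α : ℝ) : ℂ) + t * I) := by
      simp only [map_add, map_mul, Complex.conj_ofReal, Complex.conj_I]
      push_cast
      ring
    have e2 : ‖X (((1 / 2 + α : ℝ) : ℂ) + t * I)‖ = ‖X (((1 / 2 - α : ℝ) : ℂ) + t * I)‖ := by
      rw [e, hXs, Complex.norm_conj]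
    rw [norm_mul, norm_mul, e2, ← mul_assoc, ← mul_assoc]
    exact mul_le_mul_of_nonneg_right (h t) (norm_nonneg _)

/-- good functions for `γ X` are good for `γ` -/
theorem good_mul {γ X : ℂ → ℂ} (hX : Differentiable ℂ X) (hXs : ∀ s, X (1 - conj s) = conj (X s))
    (hXb : SB X) {h : ℝ → ℂ} (hg : Good (fun s => γ s * X s) h) : Good γ h := by
  obtain ⟨p, hp1, hp2, hp3, hp4⟩ := hg
  refine ⟨fun s => X s * p s, hX.continuous.mul hp1, fun σ => ?_, fun s => ?_, fun σ hσ y => ?_⟩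
  · obtain ⟨B, hB⟩ := hp2 σ
    obtain ⟨C, hC⟩ := hXb σ σ
    refine ⟨|C| * |B|, fun t => ?_⟩
    rw [norm_mul]
    exact mul_le_mul ((hC _ (by simp) (by simp)).trans (le_abs_self _)) ((hB t).trans (le_abs_self _)) (norm_nonneg _)
      (abs_nonneg _)
  · beta_reduce
    rw [hXs, hp3, map_mul]
    ring
  · rw [hp4 σ hσ y]
    simp only [mul_assoc]

end Pool.Agent.H483.ZP
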